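import Pool.Agent.H.MP_03bc95_nt.TE0
import Pool.Agent.H.MP_03bc95_nt.Ma

open Finset

namespace Pool.Agent.H.MP_03bc95_nt

/-- Factors of a fixed number: an injective family of divisors. -/
private theorem Ab_fib {α : Type*} {K m : ℕ} (hm : DivB m K) (F : Finset α) (f : α → ℤ) (n : ℤ)
    (hn : n ≠ 0) (hn1 : |n| ≤ 1000 * (K : ℤ) ^ 6) (hd : ∀ q ∈ F, f q ∣ n)
    (hi : ∀ q ∈ F, ∀ q' ∈ F, f q = f q' → q = q') : F.card ≤ m := by
  classical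
  rw [← Finset.card_image_of_injOn (s := F) (f := f) fun q hq q' hq' => hi q hq q' hq']
  refine div_card hm _ 0 n hn hn1 fun y hy => ?_
  obtain ⟨q, hq, rfl⟩ := Finset.mem_image.1 hy
  rw [sub_zero]
  exact hd q hq

private theorem Ab_mul {L : ℕ} {a b : ℤ} (ha : 1 ≤ a ∧ a ≤ L) (hb : 1 ≤ b ∧ b ≤ L) :
    1 ≤ a * b ∧ a * b ≤ (L : ℤ) ^ 2 := by
  obtain ⟨ha1, ha2⟩ := ha
  obtain ⟨hb1, hb2⟩ := hb
  constructor
  · nlinarith
  · calc a * b ≤ L * L := mul_le_mul ha2 hb2 (by linarith) (by positivity)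
      _ = (L : ℤ) ^ 2 := by ring

private theorem Ab_mul3 {L h : ℕ} {n x : ℤ} (hn : 1 ≤ n ∧ n ≤ (L : ℤ) ^ 2) (hx : 1 ≤ x ∧ x ≤ h) :
    0 ≤ n * x ∧ n * x ≤ (L : ℤ) ^ 2 * h := by
  obtain ⟨ha1, ha2⟩ := hn
  obtain ⟨hb1, hb2⟩ := hx
  exact ⟨mul_nonneg (by linarith) (by linarith),
    mul_le_mul ha2 hb2 (by linarith) (by positivity)⟩

private theorem Ab_size {L h K : ℕ} (hLK : L ≤ K) (hhK : h ≤ K) (hK : 1 ≤ K) {n : ℤ}
    (hn : |n| ≤ (L : ℤ) ^ 2 * h) : |n| ≤ 1000 * (K : ℤ) ^ 6 := by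
  have h1 : (L : ℤ) ≤ K := by exact_mod_cast hLK
  have h2 : (h : ℤ) ≤ K := by exact_mod_cast hhK
  have h3 : (1 : ℤ) ≤ K := by exact_mod_cast hK
  have h4 : (K : ℤ) ^ 3 ≤ (K : ℤ) ^ 6 := pow_le_pow_right₀ h3 (by norm_num)
  have h5 : (0 : ℤ) ≤ (K : ℤ) ^ 6 := by positivity
  have h6 : (L : ℤ) ^ 2 * h ≤ (K : ℤ) ^ 2 * K :=
    mul_le_mul (pow_le_pow_left₀ (by positivity) h1 2) h2 (by positivity) (by positivity)
  have h7 : (K : ℤ) ^ 2 * K = (K : ℤ) ^ 3 := by ring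
  linarith

/-- The tuples `(z, w, a1, a2, b1, b2)`. -/
private noncomputable def Ab_T (p : ℕ) (S : ℤ) (h L : ℕ) : Finset (ℤ × ℤ × ℤ × ℤ × ℤ × ℤ) := by
  classical
  exact (Icc (1 : ℤ) h ×ˢ Icc (1 : ℤ) h ×ˢ Icc (1 : ℤ) L ×ˢ Icc (1 : ℤ) L ×ˢ Icc (1 : ℤ) L ×ˢ
    Icc (1 : ℤ) L).filter fun q =>
    (p : ℤ) ∣ q.2.2.1 * q.2.2.2.1 * (S + q.1) - q.2.2.2.2.1 * q.2.2.2.2.2 * (S + q.2.1)

private theorem Ab_mem {p : ℕ} {S : ℤ} {h L : ℕ} {x y a b c d : ℤ} :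
    (x, y, a, b, c, d) ∈ Ab_T p S h L ↔ (1 ≤ x ∧ x ≤ h) ∧ (1 ≤ y ∧ y ≤ h) ∧ (1 ≤ a ∧ a ≤ L) ∧
      (1 ≤ b ∧ b ≤ L) ∧ (1 ≤ c ∧ c ≤ L) ∧ (1 ≤ d ∧ d ≤ L) ∧
        (p : ℤ) ∣ a * b * (S + x) - c * d * (S + y) := by
  unfold Ab_T
  simp only [mem_filter, mem_product, mem_Icc]
  tauto

private theorem Ab_le {p : ℕ} [Fact p.Prime] (S : ℤ) (h L : ℕ) :
    M6 (Itv p 0 L) (Itv p 0 L) (Itv p S h) ≤ (Ab_T p S h L).card := by
  classical
  unfold M6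
  refine Finset.card_le_card_of_surjOn (fun q =>
    ((((0 + q.2.2.1 : ℤ) : ZMod p), ((0 + q.2.2.2.1 : ℤ) : ZMod p), ((S + q.1 : ℤ) : ZMod p)),
      (((0 + q.2.2.2.2.1 : ℤ) : ZMod p), ((0 + q.2.2.2.2.2 : ℤ) : ZMod p),
        ((S + q.2.1 : ℤ) : ZMod p)))) ?_
  rintro ⟨⟨a, b, c⟩, a', b', c'⟩ hz
  simp only [mem_coe, mem_filter, mem_product] at hz
  obtain ⟨⟨⟨ha, hb, hc⟩, ha', hb', hc'⟩, he⟩ := hz
  obtain ⟨z1, h1, rfl⟩ := Ma_mem.1 ha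
  obtain ⟨z2, h2, rfl⟩ := Ma_mem.1 hb
  obtain ⟨x, hx, rfl⟩ := Ma_mem.1 hc
  obtain ⟨z3, h3, rfl⟩ := Ma_mem.1 ha'
  obtain ⟨z4, h4, rfl⟩ := Ma_mem.1 hb'
  obtain ⟨y, hy, rfl⟩ := Ma_mem.1 hc'
  refine ⟨(x, y, z1, z2, z3, z4), ?_, rfl⟩
  rw [mem_coe, Ab_mem]
  refine ⟨hx, hy, h1, h2, h3, h4, ?_⟩
  rw [← ZMod.intCast_zmod_eq_zero_iff_dvd]
  simp only [zero_add] at he
  push_cast at he ⊢
  linear_combination he

/-- The tuples with `z = w`. -/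
private theorem Ab_diag {p : ℕ} [Fact p.Prime] {S : ℤ} {h L m K : ℕ} (hm : DivB m K)
    (hLK : L ≤ K) (hhK : h ≤ K) (hh1 : 1 ≤ h) (hp : L ^ 2 < p)
    (hS : ∀ x : ℤ, 1 ≤ x → x ≤ h → ((S + x : ℤ) : ZMod p) ≠ 0) :
    ((Ab_T p S h L).filter fun q => q.1 = q.2.1).card ≤ m * (h * (L * L)) := by
  classical
  have key : ∀ x y a b c d : ℤ, (x, y, a, b, c, d) ∈ Ab_T p S h L → x = y → a * b = c * d := by
    intro x y a b c d hq hxy
    subst hxy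
    obtain ⟨hx, -, ha, hb, hc, hd, hdvd⟩ := Ab_mem.1 hq
    have h1 : a * b * (S + x) - c * d * (S + x) = (a * b - c * d) * (S + x) := by ring
    rw [h1] at hdvd
    have hpr : Prime (p : ℤ) := Nat.prime_iff_prime_int.1 Fact.out
    have h2 : (p : ℤ) ∣ a * b - c * d := by
      rcases hpr.dvd_or_dvd hdvd with h3 | h3
      · exact h3
      · exact absurd ((ZMod.intCast_zmod_eq_zero_iff_dvd _ _).2 h3) (hS x hx.1 hx.2)
    have h3 := Ab_mul ha hb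
    have h4 := Ab_mul hc hd
    have h5 : (L : ℤ) ^ 2 < p := by exact_mod_cast hp
    have h6 := Int.eq_zero_of_abs_lt_dvd h2
      (abs_lt.2 ⟨by linarith [h3.1, h4.2], by linarith [h3.2, h4.1]⟩)
    linarith
  have hcard : (Icc (1 : ℤ) h ×ˢ Icc (1 : ℤ) L ×ˢ Icc (1 : ℤ) L).card = h * (L * L) := by
    simp [card_product]
  rw [← hcard]
  refine Finset.card_le_mul_card_image_of_maps_to
    (f := fun q : ℤ × ℤ × ℤ × ℤ × ℤ × ℤ => (q.1, q.2.2.1, q.2.2.2.1)) ?_ m ?_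
  · rintro ⟨x, y, a, b, c, d⟩ hq
    obtain ⟨hq, -⟩ := mem_filter.1 hq
    obtain ⟨hx, -, ha, hb, -⟩ := Ab_mem.1 hq
    exact mem_product.2 ⟨mem_Icc.2 hx, mem_product.2 ⟨mem_Icc.2 ha, mem_Icc.2 hb⟩⟩
  · rintro ⟨x0, a0, b0⟩ h0
    obtain ⟨-, h2⟩ := mem_product.1 h0
    obtain ⟨h2, h3⟩ := mem_product.1 h2
    have h4 := Ab_mul (mem_Icc.1 h2) (mem_Icc.1 h3)
    have hh : (1 : ℤ) ≤ h := by exact_mod_cast hh1
    have h5 : |a0 * b0| ≤ (L : ℤ) ^ 2 * h := by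
      rw [abs_of_pos (by linarith [h4.1])]
      have h6 : (0 : ℤ) ≤ (L : ℤ) ^ 2 := by positivity
      nlinarith [h4.2]
    refine Ab_fib hm _ (fun q => q.2.2.2.2.1) (a0 * b0) (by linarith [h4.1])
      (Ab_size hLK hhK (hh1.trans hhK) h5) ?_ ?_
    · rintro ⟨x, y, a, b, c, d⟩ hq
      rw [mem_filter, mem_filter] at hq
      obtain ⟨⟨hq, hxy⟩, he⟩ := hq
      simp only [Prod.mk.injEq] at he
      obtain ⟨-, rfl, rfl⟩ := he
      exact ⟨d, key _ _ _ _ _ _ hq hxy⟩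
    · rintro ⟨x, y, a, b, c, d⟩ hq ⟨x', y', a', b', c', d'⟩ hq' hcc
      rw [mem_filter, mem_filter] at hq hq'
      obtain ⟨⟨hq, hxy⟩, he⟩ := hq
      obtain ⟨⟨hq', hxy'⟩, he'⟩ := hq'
      have e1 := key _ _ _ _ _ _ hq hxy
      have e2 := key _ _ _ _ _ _ hq' hxy'
      obtain ⟨-, -, -, -, hc, -⟩ := Ab_mem.1 hq
      simp only [Prod.mk.injEq] at he he'
      obtain ⟨rfl, rfl, rfl⟩ := he
      obtain ⟨rfl, rfl, rfl⟩ := he'
      simp only at hcc hxy hxy'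
      subst hcc
      subst hxy
      subst hxy'
      have hc0 : c ≠ 0 := by linarith [hc.1]
      have h6 : d = d' := mul_left_cancel₀ hc0 (e1.symm.trans e2)
      rw [h6]

/-- The tuples with `z ≠ w`. -/
private theorem Ab_off {p : ℕ} {S : ℤ} {h L m K : ℕ} (hm : DivB m K) (hLK : L ≤ K) (hhK : h ≤ K)
    (hh1 : 1 ≤ h) (hp : 2 * L ^ 2 * h < p) :
    ((Ab_T p S h L).filter fun q => ¬ q.1 = q.2.1).card ≤ m ^ 3 * ((2 * L ^ 2 + 1) * h) := by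
  classical
  have key : ∀ x y a b c d x' a' b' c' d' : ℤ, (x, y, a, b, c, d) ∈ Ab_T p S h L →
      (x', y, a', b', c', d') ∈ Ab_T p S h L → a * b - c * d = a' * b' - c' * d' →
        a * b * (x - y) = a' * b' * (x' - y) := by
    intro x y a b c d x' a' b' c' d' hq hq' hu
    obtain ⟨hx, hy, ha, hb, hc, hd, hdvd⟩ := Ab_mem.1 hq
    obtain ⟨hx', -, ha', hb', hc', hd', hdvd'⟩ := Ab_mem.1 hq'
    have h1 : (p : ℤ) ∣ (a * b * x - c * d * y) - (a' * b' * x' - c' * d' * y) := by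
      have h2 := dvd_sub hdvd hdvd'
      have h3 : a * b * (S + x) - c * d * (S + y) - (a' * b' * (S + x') - c' * d' * (S + y)) =
          (a * b * x - c * d * y) - (a' * b' * x' - c' * d' * y) := by
        linear_combination S * hu
      rwa [h3] at h2
    have h3 : (a * b * x - c * d * y) - (a' * b' * x' - c' * d' * y) = 0 := by
      have h4 := Ab_mul3 (Ab_mul ha hb) hx
      have h5 := Ab_mul3 (Ab_mul hc hd) hy
      have h6 := Ab_mul3 (Ab_mul ha' hb') hx'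
      have h7 := Ab_mul3 (Ab_mul hc' hd') hy
      have h8 : 2 * (L : ℤ) ^ 2 * h < p := by exact_mod_cast hp
      exact Int.eq_zero_of_abs_lt_dvd h1 (abs_lt.2
        ⟨by linarith [h4.1, h5.2, h6.2, h7.1], by linarith [h4.2, h5.1, h6.1, h7.2]⟩)
    linear_combination h3 - y * hu
  have hcard : (Icc (-((L ^ 2 : ℕ) : ℤ)) ((L ^ 2 : ℕ) : ℤ) ×ˢ Icc (1 : ℤ) h).card =
      (2 * L ^ 2 + 1) * h := by
    rw [card_product, Int.card_Icc, Int.card_Icc]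
    congr 1 <;> omega
  rw [← hcard]
  refine Finset.card_le_mul_card_image_of_maps_to
    (f := fun q : ℤ × ℤ × ℤ × ℤ × ℤ × ℤ =>
      (q.2.2.1 * q.2.2.2.1 - q.2.2.2.2.1 * q.2.2.2.2.2, q.2.1)) ?_ (m ^ 3) ?_
  · rintro ⟨x, y, a, b, c, d⟩ hq
    obtain ⟨hq, -⟩ := mem_filter.1 hq
    obtain ⟨-, hy, ha, hb, hc, hd, -⟩ := Ab_mem.1 hq
    have h1 := Ab_mul ha hb
    have h2 := Ab_mul hc hd
    refine mem_product.2 ⟨mem_Icc.2 ?_, mem_Icc.2 hy⟩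
    push_cast
    exact ⟨by linarith [h1.1, h2.2], by linarith [h1.2, h2.1]⟩
  · rintro ⟨u, y0⟩ -
    rcases Finset.eq_empty_or_nonempty
      (((Ab_T p S h L).filter fun q => ¬ q.1 = q.2.1).filter fun q =>
        (q.2.2.1 * q.2.2.2.1 - q.2.2.2.2.1 * q.2.2.2.2.2, q.2.1) = (u, y0)) with hF | hF
    · rw [hF, card_empty]
      exact Nat.zero_le _
    · have hFm : ∀ x y a b c d : ℤ, (x, y, a, b, c, d) ∈
          (((Ab_T p S h L).filter fun q => ¬ q.1 = q.2.1).filter fun q =>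
            (q.2.2.1 * q.2.2.2.1 - q.2.2.2.2.1 * q.2.2.2.2.2, q.2.1) = (u, y0)) →
          (x, y, a, b, c, d) ∈ Ab_T p S h L ∧ x ≠ y ∧ a * b - c * d = u ∧ y = y0 := by
        intro x y a b c d hq
        rw [mem_filter, mem_filter] at hq
        obtain ⟨⟨hq, hxy⟩, he⟩ := hq
        simp only [Prod.mk.injEq] at he
        exact ⟨hq, hxy, he.1, he.2⟩
      set F := ((Ab_T p S h L).filter fun q => ¬ q.1 = q.2.1).filter fun q =>
        (q.2.2.1 * q.2.2.2.1 - q.2.2.2.2.1 * q.2.2.2.2.2, q.2.1) = (u, y0) with hFdef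
      obtain ⟨⟨x0, y1, a0, b0, c0, d0⟩, h0⟩ := hF
      obtain ⟨h0T, h0n, h0u, rfl⟩ := hFm _ _ _ _ _ _ h0
      obtain ⟨hx0, hy0, ha0, hb0, -⟩ := Ab_mem.1 h0T
      have hN : ∀ x y a b c d : ℤ, (x, y, a, b, c, d) ∈ F →
          a * b * (x - y1) = a0 * b0 * (x0 - y1) := by
        intro x y a b c d hq
        obtain ⟨hq1, -, hq2, rfl⟩ := hFm _ _ _ _ _ _ hq
        exact key _ _ _ _ _ _ _ _ _ _ _ hq1 h0T (hq2.trans h0u.symm)
      have hn0 := Ab_mul ha0 hb0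
      have hN0 : a0 * b0 * (x0 - y1) ≠ 0 :=
        mul_ne_zero (by linarith [hn0.1]) (sub_ne_zero.2 h0n)
      have hN1 : |a0 * b0 * (x0 - y1)| ≤ (L : ℤ) ^ 2 * h := by
        have h1 := Ab_mul3 hn0 hx0
        have h2 := Ab_mul3 hn0 hy0
        rw [mul_sub]
        exact abs_le.2 ⟨by linarith [h1.1, h2.2], by linarith [h1.2, h2.1]⟩
      have hstep : F.card ≤ m * (F.image fun q => (q.2.2.1, q.2.2.2.1)).card := by
        refine Finset.card_le_mul_card_image _ m ?_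
        rintro ⟨a1, b1⟩ h1
        obtain ⟨⟨x2, y2, a2, b2, c2, d2⟩, h2, h3⟩ := mem_image.1 h1
        simp only [Prod.mk.injEq] at h3
        obtain ⟨rfl, rfl⟩ := h3
        obtain ⟨h2T, -, h2u, h2y⟩ := hFm _ _ _ _ _ _ h2
        obtain ⟨-, -, ha2, hb2, hc2, hd2, -⟩ := Ab_mem.1 h2T
        have hn' := Ab_mul hc2 hd2
        have hh : (1 : ℤ) ≤ h := by exact_mod_cast hh1
        have h5 : |c2 * d2| ≤ (L : ℤ) ^ 2 * h := by
          rw [abs_of_pos (by linarith [hn'.1])]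
          have h6 : (0 : ℤ) ≤ (L : ℤ) ^ 2 := by positivity
          nlinarith [hn'.2]
        have hcd : ∀ x y a b c d : ℤ, (x, y, a, b, c, d) ∈ F → (a, b) = (a2, b2) →
            c * d = c2 * d2 ∧ x = x2 ∧ y = y1 ∧ 1 ≤ c := by
          intro x y a b c d hq he
          simp only [Prod.mk.injEq] at he
          obtain ⟨rfl, rfl⟩ := he
          obtain ⟨hqT, -, hqu, hqy⟩ := hFm _ _ _ _ _ _ hq
          obtain ⟨-, -, ha, hb, hc, -⟩ := Ab_mem.1 hqT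
          have h6 := hN _ _ _ _ _ _ hq
          have h7 := hN _ _ _ _ _ _ h2
          have h8 : a * b ≠ 0 := by linarith [(Ab_mul ha hb).1]
          have h9 := mul_left_cancel₀ h8 (h6.trans h7.symm)
          exact ⟨by linarith, by linarith, hqy, hc.1⟩
        refine Ab_fib hm _ (fun q => q.2.2.2.2.1) (c2 * d2) (by linarith [hn'.1])
          (Ab_size hLK hhK (hh1.trans hhK) h5) ?_ ?_
        · rintro ⟨x, y, a, b, c, d⟩ hq
          obtain ⟨hq, he⟩ := mem_filter.1 hq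
          obtain ⟨h6, -⟩ := hcd _ _ _ _ _ _ hq he
          exact ⟨d, h6.symm⟩
        · rintro ⟨x, y, a, b, c, d⟩ hq ⟨x', y', a', b', c', d'⟩ hq' hcc
          obtain ⟨hq, he⟩ := mem_filter.1 hq
          obtain ⟨hq', he'⟩ := mem_filter.1 hq'
          obtain ⟨h6, rfl, rfl, hc⟩ := hcd _ _ _ _ _ _ hq he
          obtain ⟨h7, rfl, rfl, -⟩ := hcd _ _ _ _ _ _ hq' he'
          simp only [Prod.mk.injEq] at he he'
          obtain ⟨rfl, rfl⟩ := he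
          obtain ⟨rfl, rfl⟩ := he'
          simp only at hcc
          subst hcc
          have hc0 : c ≠ 0 := by linarith
          have h8 : d = d' := mul_left_cancel₀ hc0 (h6.trans h7.symm)
          rw [h8]
      have himg : (F.image fun q => (q.2.2.1, q.2.2.2.1)).card ≤ m ^ 2 := by
        refine div_pair_card hm _ 0 (a0 * b0 * (x0 - y1)) hN0
          (Ab_size hLK hhK (hh1.trans hhK) hN1) ?_
        intro q hq
        obtain ⟨⟨x, y, a, b, c, d⟩, hqF, rfl⟩ := mem_image.1 hq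
        have h1 := hN _ _ _ _ _ _ hqF
        rw [← h1, sub_zero, sub_zero]
        exact ⟨⟨b * (x - y1), by ring⟩, ⟨a * (x - y1), by ring⟩⟩
      calc F.card ≤ m * (F.image fun q => (q.2.2.1, q.2.2.2.1)).card := hstep
        _ ≤ m * m ^ 2 := Nat.mul_le_mul_left _ himg
        _ = m ^ 3 := by ring

/-- `M([1,L],[1,L],I) ≤ 4 m³ L² h` (`I = S + {1..h}`). PROOF. `m6_eq` with `S := 0`, `h := L`, `S3 := S`,
`Hn := h` (for `[1,L]`: `0 + x ≠ 0` modulo `p` since `1 ≤ x ≤ L < p`): `M6` is the number of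
`(z, w, a1, a2, b1, b2)`, `z, w ∈ [1,h]`, the others in `[1,L]`, with `a1 a2 (S + z) = b1 b2 (S + w)`
modulo `p` (`x = z`, `y = w`, multiply by `S + z`). Let `n = a1 a2`, `n' = b1 b2`, `u = n - n'`,
`v = n z - n' w` (integers): `u S + v = 0` modulo `p`, `|u| < L²`, `|v| ≤ L² h`, `2 L² h < p`. Hence `u`
determines `v` (two values are congruent modulo `p`). Also `v - u w = n (z - w)`. If `z = w`: cancel
`S + z ≠ 0`, `n = n'` modulo `p`, `|n - n'| < L² < p`, so `n = n'`: such tuples are determined by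
`(a1, a2, z)` and `b1 ∣ n` (`div_card` with `x = 0`, `1 ≤ n ≤ L² ≤ 1000 K^6`): at most `m L² h`. If
`z ≠ w`: map the tuple to `(u, w)`, at most `(2 L² + 1) h ≤ 3 L² h` values; in a fibre `v` is fixed, so
the nonzero integer `N = v - u w = n (z - w)` is fixed, `|N| ≤ L² h ≤ 1000 K^6`, `a1 ∣ N`, `a2 ∣ N`
(`m²` pairs), then `n`, `z`, `n' = n - u ≥ 1` are determined, `b1 ∣ n'` (`m` values), and `b2` is
determined: at most `m³` tuples. Total `m L² h + 3 m³ L² h ≤ 4 m³ L² h`. -/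
theorem m6_aab {p : ℕ} [Fact p.Prime] {S : ℤ} {h L m K : ℕ} (hm : DivB m K) (hLK : L ≤ K)
    (hhK : h ≤ K) (hL1 : 1 ≤ L) (hh1 : 1 ≤ h) (hp : 1000 * L ^ 2 * h ≤ p)
    (hS : ∀ x : ℤ, 1 ≤ x → x ≤ h → ((S + x : ℤ) : ZMod p) ≠ 0) :
    (M6 (Itv p 0 L) (Itv p 0 L) (Itv p S h) : ℝ) ≤ 4 * (m : ℝ) ^ 3 * (L : ℝ) ^ 2 * h := by
  have hL2 : 1 ≤ L ^ 2 := Nat.one_le_pow _ _ hL1
  have hLh : L ^ 2 ≤ L ^ 2 * h := Nat.le_mul_of_pos_right _ hh1
  have h1 := Ab_diag (S := S) hm hLK hhK hh1 (p := p) (by nlinarith) hS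
  have h2 := Ab_off (S := S) hm hLK hhK hh1 (p := p) (by nlinarith)
  have h3 := Ab_le (p := p) S h L
  have h4 := Finset.card_filter_add_card_filter_not (s := Ab_T p S h L) fun q => q.1 = q.2.1
  have h5 : m ≤ m ^ 3 := Nat.le_self_pow (by norm_num) m
  have h6 : M6 (Itv p 0 L) (Itv p 0 L) (Itv p S h) ≤ 4 * m ^ 3 * L ^ 2 * h := by
    calc M6 (Itv p 0 L) (Itv p 0 L) (Itv p S h)
        ≤ m * (h * (L * L)) + m ^ 3 * ((2 * L ^ 2 + 1) * h) := by omega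
      _ ≤ m ^ 3 * (h * (L * L)) + m ^ 3 * ((3 * L ^ 2) * h) := by
          refine Nat.add_le_add (Nat.mul_le_mul_right _ h5) (Nat.mul_le_mul_left _ ?_)
          exact Nat.mul_le_mul_right _ (by omega)
      _ = 4 * m ^ 3 * L ^ 2 * h := by ring
  exact_mod_cast h6

end Pool.Agent.H.MP_03bc95_nt
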