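import Pool.Agent.H.MP_03bc95_nt.Q.Nd

open Finset

namespace Pool.Agent.H.MP_03bc95_nt

private theorem Dg_big {p h L : ℕ} (P : ParQ p h L) :
    2 * ((L : ℤ) * h) < p ∧ (L : ℤ) < p ∧ 1 ≤ (L : ℤ) ∧ (1 : ℤ) ≤ h ∧ (L : ℤ) ≤ h := by
  have h1 : (1 : ℤ) ≤ L := by exact_mod_cast P.hL1
  have h2 : (L : ℤ) ≤ h := by exact_mod_cast P.hLh
  have h3 : (1 : ℤ) ≤ h := h1.trans h2
  have h4 : 1000 * (L : ℤ) ^ 2 * (h : ℤ) ^ 2 ≤ p := by exact_mod_cast P.hLp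
  have h5 : (1 : ℤ) ≤ L * h := by nlinarith
  have h6 : (L : ℤ) ≤ L * h := by nlinarith
  have h7 : 1000 * (L : ℤ) ^ 2 * (h : ℤ) ^ 2 = 1000 * ((L * h) * (L * h)) := by ring
  have h8 : (L : ℤ) * h ≤ (L * h) * (L * h) := by nlinarith
  rw [h7] at h4
  exact ⟨by linarith, by linarith, h1, h3, h2⟩

private theorem Dg_v {p : ℕ} [Fact p.Prime] {S : ℤ} {h L : ℕ} (P : ParQ p h L)
    {a b x y a' b' x' y' : ℤ} (hz : ((a, b), (x, y)) ∈ Lin p S h L)
    (hz' : ((a', b'), (x', y')) ∈ Lin p S h L) (hu : b - a = b' - a') :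
    b * x - a * y = b' * x' - a' * y' := by
  obtain ⟨⟨⟨a1, a2⟩, b1, b2⟩, ⟨⟨x1, x2⟩, y1, y2⟩, e⟩ := mem_Lin.1 hz
  obtain ⟨⟨⟨a1', a2'⟩, b1', b2'⟩, ⟨⟨x1', x2'⟩, y1', y2'⟩, e'⟩ := mem_Lin.1 hz'
  obtain ⟨hp1, -, hL1, hh1, -⟩ := Dg_big P
  have key : ((b * x - a * y - (b' * x' - a' * y') : ℤ) : ZMod p) = 0 := by
    have h1 : ((b - a : ℤ) : ZMod p) = ((b' - a' : ℤ) : ZMod p) := by rw [hu]
    push_cast at e e' h1 ⊢
    linear_combination e - e' - (S : ZMod p) * h1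
  have h2 : (p : ℤ) ∣ b * x - a * y - (b' * x' - a' * y') :=
    (ZMod.intCast_zmod_eq_zero_iff_dvd _ p).1 key
  have e1 : b * x ≤ L * h := mul_le_mul b2 x2 (by linarith) (by linarith)
  have e2 : a * y ≤ L * h := mul_le_mul a2 y2 (by linarith) (by linarith)
  have e3 : b' * x' ≤ L * h := mul_le_mul b2' x2' (by linarith) (by linarith)
  have e4 : a' * y' ≤ L * h := mul_le_mul a2' y2' (by linarith) (by linarith)
  have f1 : 0 < b * x := mul_pos (by linarith) (by linarith)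
  have f2 : 0 < a * y := mul_pos (by linarith) (by linarith)
  have f3 : 0 < b' * x' := mul_pos (by linarith) (by linarith)
  have f4 : 0 < a' * y' := mul_pos (by linarith) (by linarith)
  have h3 : |b * x - a * y - (b' * x' - a' * y')| < p := by
    rw [abs_lt]
    constructor <;> linarith
  have h4 := Int.eq_zero_of_abs_lt_dvd h2 h3
  linarith

private theorem Dg_fib {p : ℕ} [Fact p.Prime] {S : ℤ} {h m L : ℕ} (H : Hyp p S h m)
    (P : ParQ p h L) (q : ℤ × ℤ) (hq : q.1 ≠ 0) :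
    ((Lin p S h L).filter fun z => (z.1.2 - z.1.1, z.2.2) = q).card ≤ m := by
  obtain ⟨u, y⟩ := q
  obtain ⟨hp1, hp2, hL1, hh1, hLh⟩ := Dg_big P
  set F := (Lin p S h L).filter fun z => (z.1.2 - z.1.1, z.2.2) = (u, y) with hF
  rcases F.eq_empty_or_nonempty with h0 | ⟨⟨⟨a, b⟩, x, y'⟩, hz0⟩
  · rw [h0, card_empty]
    exact Nat.zero_le _
  rw [hF, mem_filter] at hz0
  obtain ⟨hz, hzq⟩ := hz0
  obtain ⟨hu, rfl⟩ := Prod.mk.inj hzq
  obtain ⟨⟨⟨a1, a2⟩, b1, b2⟩, ⟨⟨x1, x2⟩, y1, y2⟩, e⟩ := mem_Lin.1 hz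
  simp only at hu hq
  -- the number `n`
  have hn : ∀ z ∈ F, z.1.2 - z.1.1 = u ∧ z.2.2 = y' ∧ z.1.2 * (z.2.1 - y') = b * (x - y') := by
    rintro ⟨⟨a', b'⟩, x', y''⟩ hz'
    rw [hF, mem_filter] at hz'
    obtain ⟨hz1, hz2⟩ := hz'
    obtain ⟨hu', hy'⟩ := Prod.mk.inj hz2
    simp only at hu' hy' ⊢
    subst hy'
    refine ⟨hu', rfl, ?_⟩
    have h1 := Dg_v P hz hz1 (by rw [hu, hu'])
    have h2 : (b - a) * y'' = (b' - a') * y'' := by rw [hu, hu']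
    linarith
  have hn0 : b * (x - y') ≠ 0 := by
    intro h1
    have h2 : x = y' := by
      rcases mul_eq_zero.1 h1 with h3 | h3
      · exfalso
        linarith
      · linarith
    rw [h2] at e
    have h3 : ((b - a : ℤ) : ZMod p) * ((S + y' : ℤ) : ZMod p) = 0 := by
      push_cast at e ⊢
      linear_combination e
    rcases mul_eq_zero.1 h3 with h4 | h4
    · have h5 : (p : ℤ) ∣ b - a := (ZMod.intCast_zmod_eq_zero_iff_dvd _ p).1 h4
      have h6 : |b - a| < p := by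
        rw [abs_lt]
        constructor <;> linarith
      have h7 := Int.eq_zero_of_abs_lt_dvd h5 h6
      exact hq (by rw [← hu, h7])
    · exact H.hS y' y1 y2 h4
  have hn1 : |b * (x - y')| ≤ 1000 * (h : ℤ) ^ 6 := by
    have h1 : |b * (x - y')| ≤ L * h := by
      rw [abs_mul, abs_of_pos (by linarith : 0 < b)]
      refine mul_le_mul b2 ?_ (abs_nonneg _) (by linarith)
      rw [abs_le]
      constructor <;> linarith
    have h2 : (L : ℤ) * h ≤ h * h := mul_le_mul_of_nonneg_right hLh (by linarith)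
    have h3 : (h : ℤ) ^ 2 ≤ (h : ℤ) ^ 6 := pow_le_pow_right₀ hh1 (by norm_num)
    nlinarith
  have hinj : Set.InjOn (fun z : (ℤ × ℤ) × (ℤ × ℤ) => z.1.2) (F : Set ((ℤ × ℤ) × (ℤ × ℤ))) := by
    rintro ⟨⟨a', b'⟩, x', y1'⟩ h1 ⟨⟨a'', b''⟩, x'', y1''⟩ h2 h3
    obtain ⟨g1, g2, g3⟩ := hn _ h1
    obtain ⟨k1, k2, k3⟩ := hn _ h2
    simp only at g1 g2 g3 k1 k2 k3 h3
    subst h3
    have hb : b' ≠ 0 := by
      rintro rfl
      rw [zero_mul] at g3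
      exact hn0 g3.symm
    have h4 : x' - y' = x'' - y' := mul_left_cancel₀ hb (g3.trans k3.symm)
    have h5 : a' = a'' := by linarith
    have h6 : x' = x'' := by linarith
    rw [h5, h6, g2, k2]
  rw [← card_image_of_injOn hinj]
  refine div_card H.hm _ 0 (b * (x - y')) hn0 hn1 fun c hc => ?_
  obtain ⟨z, hz', rfl⟩ := mem_image.1 hc
  obtain ⟨-, -, g3⟩ := hn z hz'
  rw [sub_zero, ← g3]
  exact dvd_mul_right _ _

private theorem Dg_lin {p : ℕ} [Fact p.Prime] {S : ℤ} {h m L : ℕ} (H : Hyp p S h m)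
    (P : ParQ p h L) : (Lin p S h L).card ≤ L * h + m * (2 * L * h) := by
  obtain ⟨hp1, hp2, hL1, hh1, hLh⟩ := Dg_big P
  rw [← card_filter_add_card_filter_not (s := Lin p S h L) (fun z => z.1.2 = z.1.1)]
  refine add_le_add ?_ ?_
  · have h1 : ((Icc (1 : ℤ) L) ×ˢ (Icc (1 : ℤ) h)).card = L * h := by
      rw [card_product, Int.card_Icc, Int.card_Icc]
      simp
    rw [← h1]
    refine card_le_card_of_injOn (fun z => (z.1.2, z.2.2)) ?_ ?_
    · rintro ⟨⟨a, b⟩, x, y⟩ hz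
      rw [mem_coe, mem_filter] at hz
      obtain ⟨⟨⟨a1, a2⟩, b1, b2⟩, ⟨⟨x1, x2⟩, y1, y2⟩, e⟩ := mem_Lin.1 hz.1
      rw [mem_coe, mem_product, mem_Icc, mem_Icc]
      exact ⟨⟨b1, b2⟩, y1, y2⟩
    · have key : ∀ a b x y : ℤ, ((a, b), (x, y)) ∈ Lin p S h L → b = a → x = y := by
        intro a b x y hz hab
        obtain ⟨⟨⟨a1, a2⟩, b1, b2⟩, ⟨⟨x1, x2⟩, y1, y2⟩, e⟩ := mem_Lin.1 hz
        subst hab
        have h2 : (b : ZMod p) * ((x - y : ℤ) : ZMod p) = 0 := by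
          push_cast at e ⊢
          linear_combination e
        rcases mul_eq_zero.1 h2 with h3 | h3
        · exfalso
          have h4 : (p : ℤ) ∣ b := (ZMod.intCast_zmod_eq_zero_iff_dvd _ p).1 h3
          have h5 : |b| < p := by
            rw [abs_lt]
            constructor <;> linarith
          have h6 := Int.eq_zero_of_abs_lt_dvd h4 h5
          linarith
        · have h4 : (p : ℤ) ∣ x - y := (ZMod.intCast_zmod_eq_zero_iff_dvd _ p).1 h3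
          have h6 : (h : ℤ) ≤ L * h := by nlinarith
          have h5 : |x - y| < p := by
            rw [abs_lt]
            constructor <;> linarith
          have h7 := Int.eq_zero_of_abs_lt_dvd h4 h5
          linarith
      rintro ⟨⟨a, b⟩, x, y⟩ hz ⟨⟨a', b'⟩, x', y'⟩ hz' he
      rw [mem_coe, mem_filter] at hz hz'
      obtain ⟨hz1, hz2⟩ := hz
      obtain ⟨hz1', hz2'⟩ := hz'
      obtain ⟨e1, e2⟩ := Prod.mk.inj he
      simp only at hz2 hz2' e1 e2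
      have h3 := key _ _ _ _ hz1 hz2
      have h4 := key _ _ _ _ hz1' hz2'
      subst hz2 hz2' e1 e2 h3 h4
      rfl
  · have h1 : ((Icc (1 - (L : ℤ)) (L - 1)) ×ˢ (Icc (1 : ℤ) h)).card ≤ 2 * L * h := by
      rw [card_product, Int.card_Icc, Int.card_Icc]
      refine Nat.mul_le_mul ?_ (by simp)
      omega
    set G := (Lin p S h L).filter fun z => ¬ z.1.2 = z.1.1 with hG
    refine (card_le_mul_card_image (f := fun z : (ℤ × ℤ) × (ℤ × ℤ) => (z.1.2 - z.1.1, z.2.2))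
      G m ?_).trans (Nat.mul_le_mul_left m (le_trans (card_le_card ?_) h1))
    · intro q hq
      obtain ⟨z, hz, rfl⟩ := mem_image.1 hq
      rw [hG, mem_filter] at hz
      refine le_trans (card_le_card ?_) (Dg_fib H P (z.1.2 - z.1.1, z.2.2) (sub_ne_zero.2 hz.2))
      intro w hw
      rw [mem_filter] at hw ⊢
      rw [hG, mem_filter] at hw
      exact ⟨hw.1.1, hw.2⟩
    · intro q hq
      obtain ⟨⟨⟨a, b⟩, x, y⟩, hz, rfl⟩ := mem_image.1 hq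
      rw [hG, mem_filter] at hz
      obtain ⟨⟨⟨a1, a2⟩, b1, b2⟩, ⟨⟨x1, x2⟩, y1, y2⟩, e⟩ := mem_Lin.1 hz.1
      rw [mem_product, mem_Icc, mem_Icc]
      refine ⟨⟨?_, ?_⟩, y1, y2⟩ <;> simp only <;> linarith

private theorem Dg_half {p : ℕ} {S : ℤ} {h L : ℕ} (T : Finset ((ℤ × ℤ) × (ℤ × ℤ) × (ℤ × ℤ)))
    (g : (ℤ × ℤ) × (ℤ × ℤ) × (ℤ × ℤ) → ℤ)
    (hT : ∀ z ∈ T, ((z.1.1, z.1.2), (g z, z.2.2.2)) ∈ Lin p S h L ∧ 1 ≤ z.2.2.1 ∧ z.2.2.1 ≤ h)
    (hg : Set.InjOn (fun z : (ℤ × ℤ) × (ℤ × ℤ) × (ℤ × ℤ) =>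
      (((z.1.1, z.1.2), (g z, z.2.2.2)), z.2.2.1)) (T : Set ((ℤ × ℤ) × (ℤ × ℤ) × (ℤ × ℤ)))) :
    T.card ≤ (Lin p S h L).card * h := by
  have h1 : ((Lin p S h L) ×ˢ (Icc (1 : ℤ) h)).card = (Lin p S h L).card * h := by
    rw [card_product, Int.card_Icc]
    simp
  rw [← h1]
  refine card_le_card_of_injOn _ ?_ hg
  intro z hz
  obtain ⟨h2, h3, h4⟩ := hT z hz
  rw [mem_coe, mem_product, mem_Icc]
  exact ⟨h2, h3, h4⟩

/-- `#Lin ≤ 3 m L h`. PROOF. Let `u = b - a`, `v = b x - a y` (integers): `u S + v = 0` modulo `p`,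
`|u| < L`, `|v| ≤ L h < p / 2`. If `u = 0` then `v = 0` modulo `p`, so `v = 0`, `b (x - y) = 0`, `x = y`:
at most `L h` quadruples (determined by `b`, `y`). If `u ≠ 0`: for fixed `(u, y)` (at most `2 L h` values)
`v` is determined (two values are congruent modulo `p` and `|v - v'| ≤ 2 L h < p`), `n = v - u y =
b (x - y)` is nonzero (otherwise `u (S + y) = 0` modulo `p`, but `0 < |u| < p` and `S + y ≠ 0`),
`|n| ≤ L h ≤ 1000 h^6`, `b ∣ n` (`div_card` with `x = 0`: at most `m` values), `b` determines `x` and `a`.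
Total `L h + 2 L h m ≤ 3 m L h` (`2 ≤ m` by `two_le_of_hyp`). -/
theorem lin_card {p : ℕ} [Fact p.Prime] {S : ℤ} {h m L : ℕ} (H : Hyp p S h m) (P : ParQ p h L) :
    ((Lin p S h L).card : ℝ) ≤ 3 * m * L * h := by
  have h1 : ((Lin p S h L).card : ℝ) ≤ ((L * h + m * (2 * L * h) : ℕ) : ℝ) := by
    exact_mod_cast Dg_lin H P
  have h2 : (1 : ℝ) ≤ m := by
    have := two_le_of_hyp H
    exact_mod_cast (by omega : 1 ≤ m)
  have h3 : (0 : ℝ) ≤ L * h := by positivity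
  push_cast at h1
  nlinarith

/-- The degenerate tuples are at most `6 m L h²`. PROOF. Tuples with `x1 = y1`: cancel `S + y1 ≠ 0`
(`H.hS`): `((a,b),(x2,y2)) ∈ Lin`, and the tuple is determined by this and `y1 ∈ [1,h]`. Tuples with
`x2 = y1`: `((a,b),(x1,y2)) ∈ Lin`, same. -/
theorem deg_card {p : ℕ} [Fact p.Prime] {S : ℤ} {h m L : ℕ} (H : Hyp p S h m) (P : ParQ p h L) :
    (((Tup p S h L).filter fun z => ¬ (z.2.1.1 ≠ z.2.2.1 ∧ z.2.1.2 ≠ z.2.2.1)).card : ℝ) ≤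
      6 * m * L * (h : ℝ) ^ 2 := by
  have h1 : ((Tup p S h L).filter fun z => z.2.1.1 = z.2.2.1).card ≤ (Lin p S h L).card * h := by
    refine Dg_half _ (fun z => z.2.1.2) ?_ ?_
    · rintro ⟨⟨a, b⟩, ⟨x1, x2⟩, y1, y2⟩ hz
      rw [mem_filter] at hz
      obtain ⟨hz1, hz2⟩ := hz
      simp only at hz2
      subst hz2
      obtain ⟨hab, hx, hy, e⟩ := mem_Tup.1 hz1
      refine ⟨mem_Lin.2 ⟨hab, ⟨hx.2, hy.2⟩, ?_⟩, hx.1.1, hx.1.2⟩
      refine mul_left_cancel₀ (H.hS x1 hx.1.1 hx.1.2) ?_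
      linear_combination e
    · rintro ⟨⟨a, b⟩, ⟨x1, x2⟩, y1, y2⟩ hz ⟨⟨a', b'⟩, ⟨x1', x2'⟩, y1', y2'⟩ hz' he
      rw [mem_coe, mem_filter] at hz hz'
      have hz2 := hz.2
      have hz2' := hz'.2
      simp only [Prod.mk.injEq] at he hz2 hz2'
      obtain ⟨⟨⟨e1, e2⟩, e3, e4⟩, e5⟩ := he
      subst hz2 hz2' e1 e2 e3 e4 e5
      rfl
  have h2 : ((Tup p S h L).filter fun z => z.2.1.2 = z.2.2.1).card ≤ (Lin p S h L).card * h := by
    refine Dg_half _ (fun z => z.2.1.1) ?_ ?_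
    · rintro ⟨⟨a, b⟩, ⟨x1, x2⟩, y1, y2⟩ hz
      rw [mem_filter] at hz
      obtain ⟨hz1, hz2⟩ := hz
      simp only at hz2
      subst hz2
      obtain ⟨hab, hx, hy, e⟩ := mem_Tup.1 hz1
      refine ⟨mem_Lin.2 ⟨hab, ⟨hx.1, hy.2⟩, ?_⟩, hx.2.1, hx.2.2⟩
      refine mul_left_cancel₀ (H.hS x2 hx.2.1 hx.2.2) ?_
      linear_combination e
    · rintro ⟨⟨a, b⟩, ⟨x1, x2⟩, y1, y2⟩ hz ⟨⟨a', b'⟩, ⟨x1', x2'⟩, y1', y2'⟩ hz' he
      rw [mem_coe, mem_filter] at hz hz'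
      have hz2 := hz.2
      have hz2' := hz'.2
      simp only [Prod.mk.injEq] at he hz2 hz2'
      obtain ⟨⟨⟨e1, e2⟩, e3, e4⟩, e5⟩ := he
      subst hz2 hz2' e1 e2 e3 e4 e5
      rfl
  have h3 : ((Tup p S h L).filter fun z => ¬ (z.2.1.1 ≠ z.2.2.1 ∧ z.2.1.2 ≠ z.2.2.1)).card ≤
      (Lin p S h L).card * h + (Lin p S h L).card * h := by
    refine le_trans (card_le_card ?_) ((card_union_le _ _).trans (add_le_add h1 h2))
    intro z hz
    rw [mem_filter] at hz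
    rw [mem_union, mem_filter, mem_filter]
    obtain ⟨hz1, hz2⟩ := hz
    by_cases h4 : z.2.1.1 = z.2.2.1
    · exact Or.inl ⟨hz1, h4⟩
    · refine Or.inr ⟨hz1, ?_⟩
      by_contra h5
      exact hz2 ⟨h4, h5⟩
  have h4 : (((Tup p S h L).filter fun z =>
      ¬ (z.2.1.1 ≠ z.2.2.1 ∧ z.2.1.2 ≠ z.2.2.1)).card : ℝ) ≤
      (Lin p S h L).card * h + (Lin p S h L).card * h := by
    exact_mod_cast h3
  have h5 := lin_card H P
  have h6 : ((Lin p S h L).card : ℝ) * h ≤ 3 * m * L * h * h :=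
    mul_le_mul_of_nonneg_right h5 (Nat.cast_nonneg h)
  calc _ ≤ _ := h4
    _ ≤ 3 * m * L * h * h + 3 * m * L * h * h := add_le_add h6 h6
    _ = 6 * m * L * (h : ℝ) ^ 2 := by ring

end Pool.Agent.H.MP_03bc95_nt
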