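import Pool.Agent.H.MP_03bc95_nt.Q.Def
import Pool.Agent.H.MP_03bc95_nt.TE0

open Finset

namespace Pool.Agent.H.MP_03bc95_nt

/-- The nondegenerate tuples: `x1 ≠ y1`, `x2 ≠ y1`. -/
noncomputable def NTup (p : ℕ) (S : ℤ) (h L : ℕ) : Finset ((ℤ × ℤ) × (ℤ × ℤ) × (ℤ × ℤ)) :=
  (Tup p S h L).filter fun z => z.2.1.1 ≠ z.2.2.1 ∧ z.2.1.2 ≠ z.2.2.1

/-- The polynomial of a tuple and `y1`: `α = b - a`, `β = b (x1+x2) - a (y1+y2)`,
`γ = b x1 x2 - a y1 y2`. -/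
def pol (z : (ℤ × ℤ) × (ℤ × ℤ) × (ℤ × ℤ)) : (ℤ × ℤ × ℤ) × ℤ :=
  ((z.1.2 - z.1.1, z.1.2 * (z.2.1.1 + z.2.1.2) - z.1.1 * (z.2.2.1 + z.2.2.2),
    z.1.2 * (z.2.1.1 * z.2.1.2) - z.1.1 * (z.2.2.1 * z.2.2.2)), z.2.2.1)

/-- The polynomial of a tuple belongs to `PS`, and `y1 ∈ [1,h]`. -/
theorem pol_mem {p : ℕ} {S : ℤ} {h L : ℕ} {z : (ℤ × ℤ) × (ℤ × ℤ) × (ℤ × ℤ)}
    (hz : z ∈ Tup p S h L) : pol z ∈ PS p S h L ×ˢ Icc (1 : ℤ) h := by
  obtain ⟨⟨a, b⟩, ⟨x1, x2⟩, ⟨y1, y2⟩⟩ := z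
  obtain ⟨⟨⟨ha1, ha2⟩, hb1, hb2⟩, ⟨⟨hx1, hx1'⟩, hx2, hx2'⟩, ⟨⟨hy1, hy1'⟩, hy2, hy2'⟩, he⟩ :=
    mem_Tup.1 hz
  show ((b - a, b * (x1 + x2) - a * (y1 + y2), b * (x1 * x2) - a * (y1 * y2)), y1) ∈ _
  rw [mem_product, mem_PS, mem_Icc]
  refine ⟨⟨⟨?_, ?_, ?_⟩, ?_⟩, hy1, hy1'⟩
  · show |b - a| ≤ (L : ℤ)
    rw [abs_le]
    constructor <;> linarith
  · show |b * (x1 + x2) - a * (y1 + y2)| ≤ 2 * (L : ℤ) * h
    have k1 : b * (x1 + x2) ≤ (L : ℤ) * (h + h) :=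
      mul_le_mul hb2 (add_le_add hx1' hx2') (by linarith) (by linarith)
    have k2 : a * (y1 + y2) ≤ (L : ℤ) * (h + h) :=
      mul_le_mul ha2 (add_le_add hy1' hy2') (by linarith) (by linarith)
    have k3 : 0 ≤ b * (x1 + x2) := mul_nonneg (by linarith) (by linarith)
    have k4 : 0 ≤ a * (y1 + y2) := mul_nonneg (by linarith) (by linarith)
    rw [abs_le]
    constructor <;> linarith
  · show |b * (x1 * x2) - a * (y1 * y2)| ≤ (L : ℤ) * h ^ 2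
    have k1 : b * (x1 * x2) ≤ (L : ℤ) * (h * h) :=
      mul_le_mul hb2 (mul_le_mul hx1' hx2' (by linarith) (by linarith))
        (mul_nonneg (by linarith) (by linarith)) (by linarith)
    have k2 : a * (y1 * y2) ≤ (L : ℤ) * (h * h) :=
      mul_le_mul ha2 (mul_le_mul hy1' hy2' (by linarith) (by linarith))
        (mul_nonneg (by linarith) (by linarith)) (by linarith)
    have k3 : 0 ≤ b * (x1 * x2) := mul_nonneg (by linarith) (mul_nonneg (by linarith) (by linarith))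
    have k4 : 0 ≤ a * (y1 * y2) := mul_nonneg (by linarith) (mul_nonneg (by linarith) (by linarith))
    rw [abs_le, pow_two]
    constructor <;> linarith
  · show (((b - a) * S ^ 2 + (b * (x1 + x2) - a * (y1 + y2)) * S +
      (b * (x1 * x2) - a * (y1 * y2)) : ℤ) : ZMod p) = 0
    have k1 : (b - a) * S ^ 2 + (b * (x1 + x2) - a * (y1 + y2)) * S +
        (b * (x1 * x2) - a * (y1 * y2)) =
        b * ((S + x1) * (S + x2)) - a * ((S + y1) * (S + y2)) := by ring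
    rw [k1, Int.cast_sub, Int.cast_mul, Int.cast_mul, Int.cast_mul, Int.cast_mul, he, sub_self]

private theorem Nd_n {z : (ℤ × ℤ) × (ℤ × ℤ) × (ℤ × ℤ)} {q : (ℤ × ℤ × ℤ) × ℤ} (h : pol z = q) :
    q.1.1 * q.2 ^ 2 - q.1.2.1 * q.2 + q.1.2.2 =
      z.1.2 * ((z.2.1.1 - z.2.2.1) * (z.2.1.2 - z.2.2.1)) := by
  subst h
  simp only [pol]
  ring

/-- At most `m²` nondegenerate tuples have a given polynomial `(α, β, γ)` and a given `y1`. PROOF. The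
integer `n = α y1² - β y1 + γ = b (x1 - y1)(x2 - y1)` is nonzero, `|n| ≤ L h² ≤ h³ ≤ 1000 h^6`. The map
`z ↦ (b, x1)` is injective on the fibre: `x2` from `n`, `a = b - α`, then `y2` from
`a (y1 + y2) = b (x1 + x2) - β`, `a ≠ 0`. The values `b` divide `n` (`div_card` with `x = 0`), the values
`x1` have `x1 - y1 ∣ n` (`div_card` with `x = y1`): at most `m · m` pairs. -/
theorem pol_fibre {p : ℕ} [Fact p.Prime] {S : ℤ} {h m L : ℕ} (H : Hyp p S h m) (P : ParQ p h L)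
    (q : (ℤ × ℤ × ℤ) × ℤ) : ((NTup p S h L).filter fun z => pol z = q).card ≤ m ^ 2 := by
  classical
  set F := (NTup p S h L).filter fun z => pol z = q with hF
  have hmem : ∀ z ∈ F, z ∈ Tup p S h L ∧ (z.2.1.1 ≠ z.2.2.1 ∧ z.2.1.2 ≠ z.2.2.1) ∧ pol z = q := by
    intro z hz
    rw [hF, mem_filter, NTup, mem_filter] at hz
    exact ⟨hz.1.1, hz.1.2, hz.2⟩
  set n := q.1.1 * q.2 ^ 2 - q.1.2.1 * q.2 + q.1.2.2 with hn
  have hfac : ∀ z ∈ F, n = z.1.2 * ((z.2.1.1 - z.2.2.1) * (z.2.1.2 - z.2.2.1)) :=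
    fun z hz => Nd_n (hmem z hz).2.2
  rcases F.eq_empty_or_nonempty with h0 | ⟨w, hw⟩
  · rw [h0, card_empty]
    exact Nat.zero_le _
  -- the integer `n`
  have hn0 : n ≠ 0 ∧ |n| ≤ 1000 * (h : ℤ) ^ 6 := by
    have e1 := hfac w hw
    obtain ⟨e2, e3, -⟩ := hmem w hw
    obtain ⟨⟨a, b⟩, ⟨x1, x2⟩, ⟨y1, y2⟩⟩ := w
    obtain ⟨⟨⟨ha1, ha2⟩, hb1, hb2⟩, ⟨⟨hx1, hx1'⟩, hx2, hx2'⟩, ⟨⟨hy1, hy1'⟩, hy2, hy2'⟩, -⟩ :=
      mem_Tup.1 e2
    simp only at e1 e3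
    have k0 : x1 - y1 ≠ 0 := sub_ne_zero.2 e3.1
    have k0' : x2 - y1 ≠ 0 := sub_ne_zero.2 e3.2
    refine ⟨?_, ?_⟩
    · rw [e1]
      exact mul_ne_zero (by linarith) (mul_ne_zero k0 k0')
    · have hLh : (L : ℤ) ≤ h := by exact_mod_cast P.hLh
      have k1 : |x1 - y1| ≤ (h : ℤ) := by
        rw [abs_le]
        constructor <;> linarith
      have k2 : |x2 - y1| ≤ (h : ℤ) := by
        rw [abs_le]
        constructor <;> linarith
      have k3 : |b| ≤ (h : ℤ) := by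
        rw [abs_le]
        constructor <;> linarith
      have k4 : (1 : ℤ) ≤ h := by linarith
      have k5 : (0 : ℤ) ≤ h := by linarith
      rw [e1, abs_mul, abs_mul]
      have k6 : |b| * (|x1 - y1| * |x2 - y1|) ≤ (h : ℤ) * (h * h) :=
        mul_le_mul k3 (mul_le_mul k1 k2 (abs_nonneg _) k5)
          (mul_nonneg (abs_nonneg _) (abs_nonneg _)) k5
      have k7 : (h : ℤ) ^ 3 ≤ (h : ℤ) ^ 6 := pow_le_pow_right₀ k4 (by norm_num)
      have k8 : (h : ℤ) * (h * h) = (h : ℤ) ^ 3 := by ring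
      have k9 : (0 : ℤ) ≤ (h : ℤ) ^ 6 := pow_nonneg k5 _
      linarith
  -- the two projections
  have h1 : (F.image fun z => z.1.2).card ≤ m := by
    apply div_card H.hm _ 0 n hn0.1 hn0.2
    intro y hy
    obtain ⟨z, hz, rfl⟩ := mem_image.1 hy
    rw [sub_zero]
    exact ⟨_, hfac z hz⟩
  have h2 : (F.image fun z => z.2.1.1).card ≤ m := by
    apply div_card H.hm _ q.2 n hn0.1 hn0.2
    intro y hy
    obtain ⟨z, hz, rfl⟩ := mem_image.1 hy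
    have e1 : z.2.2.1 = q.2 := congrArg Prod.snd (hmem z hz).2.2
    have e2 := hfac z hz
    rw [e1] at e2
    exact ⟨z.1.2 * (z.2.1.2 - q.2), by rw [e2]; ring⟩
  have hinj : Set.InjOn (fun z : (ℤ × ℤ) × (ℤ × ℤ) × (ℤ × ℤ) => (z.1.2, z.2.1.1)) F := by
    intro z hz z' hz' hzz
    have hz := mem_coe.1 hz
    have hz' := mem_coe.1 hz'
    have f1 := hfac z hz
    have f2 := hfac z' hz'
    obtain ⟨g1, g2, g3⟩ := hmem z hz
    obtain ⟨g1', g2', g3'⟩ := hmem z' hz'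
    have g4 := g3.trans g3'.symm
    obtain ⟨⟨a, b⟩, ⟨x1, x2⟩, ⟨y1, y2⟩⟩ := z
    obtain ⟨⟨a', b'⟩, ⟨x1', x2'⟩, ⟨y1', y2'⟩⟩ := z'
    obtain ⟨⟨⟨ha1, ha2⟩, hb1, hb2⟩, -⟩ := mem_Tup.1 g1
    simp only [pol, Prod.mk.injEq] at g4 hzz f1 f2 g2
    obtain ⟨rfl, rfl⟩ := hzz
    obtain ⟨⟨c1, c2, c3⟩, rfl⟩ := g4
    have ea : a = a' := by linarith
    subst ea
    have hb0 : b ≠ 0 := by linarith
    have hx0 : x1 - y1 ≠ 0 := sub_ne_zero.2 g2.1
    have ex : x2 = x2' := by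
      have e1 := f1.symm.trans f2
      have e2 := mul_left_cancel₀ hx0 (mul_left_cancel₀ hb0 e1)
      linarith
    subst ex
    have ha0 : a ≠ 0 := by linarith
    have ey : y2 = y2' := by
      have e1 : a * (y1 + y2) = a * (y1 + y2') := by linarith
      have e2 := mul_left_cancel₀ ha0 e1
      linarith
    subst ey
    rfl
  have h3 : F.image (fun z : (ℤ × ℤ) × (ℤ × ℤ) × (ℤ × ℤ) => (z.1.2, z.2.1.1)) ⊆
      (F.image fun z => z.1.2) ×ˢ (F.image fun z => z.2.1.1) := by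
    intro y hy
    obtain ⟨z, hz, rfl⟩ := mem_image.1 hy
    rw [mem_product]
    exact ⟨mem_image_of_mem _ hz, mem_image_of_mem _ hz⟩
  have h4 := card_le_card h3
  rw [card_product, card_image_of_injOn hinj] at h4
  calc F.card ≤ _ := h4
    _ ≤ m * m := Nat.mul_le_mul h1 h2
    _ = m ^ 2 := by ring

/-- `Finset.card_le_mul_card_image` with `pol_fibre`, the image lies in `PS ×ˢ Icc 1 h`. -/
theorem ntup_card {p : ℕ} [Fact p.Prime] {S : ℤ} {h m L : ℕ} (H : Hyp p S h m) (P : ParQ p h L) :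
    ((NTup p S h L).card : ℝ) ≤ (m : ℝ) ^ 2 * ((PS p S h L).card * h) := by
  classical
  have h1 := card_le_mul_card_image (f := pol) (NTup p S h L) (m ^ 2)
    fun q _ => pol_fibre H P q
  have h2 : (NTup p S h L).image pol ⊆ PS p S h L ×ˢ Icc (1 : ℤ) h := by
    intro y hy
    obtain ⟨z, hz, rfl⟩ := mem_image.1 hy
    rw [NTup, mem_filter] at hz
    exact pol_mem hz.1
  have h3 := card_le_card h2
  rw [card_product, Int.card_Icc, add_sub_cancel_right, Int.toNat_natCast] at h3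
  have h4 := h1.trans (Nat.mul_le_mul_left _ h3)
  exact_mod_cast h4

end Pool.Agent.H.MP_03bc95_nt
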