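import Pool.Agent.H.MP_03bc95_nt.Q.St0

open Finset

namespace Pool.Agent.H.MP_03bc95_nt

/-- Structured case. PROOF. `dyadic_sum` (see `caseB_sum` in `TL.lean`) with
`T = (Icc 1 h ×ˢ Icc 1 L ×ˢ Icc 1 L).filter (z.2.1 ≠ z.2.2)`, `Q z ν = LBWk p h k (A * rho p S 0 ..) ν`,
`f z = #Sol`, `c = 0`, `a = 301 m h / L`, `b = 2 m`, `K = 2 m L h²`. `hQ0`: `lbwk_one_div`. `hf`:
`sol_structk` with `t = (max 1 (h^4/p))^(1/3)`, so `t^3 = max 1 (h^4/p)`, `t^3 p ≥ h^4` (see `m6_final` in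
`TO.lean`) and `300 k t^3 ≤ 300 h / L`: `k ≤ L / h ≤ 1 ≤ h / L` and `k h^4 / p ≤ L h³ / p ≤ h / L`
because `L² h² ≤ p`. `hK`: `tinit_card` (the finset is contained in `TSk`, `mem_TSk`). `#T ≤ h L²`. Total
`h L² (301 m h / L + 2 m) + 2 · 2 m · 2 m L h² (1 + log) ≤ 303 m L h² + 8 m² L h² (1 + log)`. -/
theorem struct_init {p : ℕ} [Fact p.Prime] {S : ℤ} {h m L : ℕ} (H : Hyp p S h m) (P : ParQ p h L)
    {k : ℝ} (hk0 : 0 < k) (hkL : k * h ≤ L) {A B : ℤ} (hAB : ABk p S h k A B) :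
    ((∑ z ∈ (Icc (1 : ℤ) h ×ˢ Icc (1 : ℤ) L ×ˢ Icc (1 : ℤ) L).filter (fun z => z.2.1 ≠ z.2.2),
      (Sol p S h (rho p S 0 z.1 z.2.1 z.2.2)).card : ℕ) : ℝ) ≤
      200 * (m : ℝ) ^ 2 * L * (h : ℝ) ^ 2 * (1 + Nat.log 2 h) := by
  classical
  have hp0 : (0 : ℝ) < p := by exact_mod_cast (Fact.out : p.Prime).pos
  have hL1 := P.one_le_L
  have hLh := P.L_le
  have hh1 := P.one_le_h
  have hh0 : (0 : ℝ) < h := by linarith
  have hL0 : (0 : ℝ) < L := by linarith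
  have hr1 := P.one_le_t
  have hpL := P.le_p
  have hm2 : (2 : ℝ) ≤ m := by exact_mod_cast two_le_of_hyp H
  have hm0 : (0 : ℝ) < m := by linarith
  have hk1 : k ≤ 1 := by
    have h1 : k * h ≤ 1 * h := by linarith
    exact le_of_mul_le_mul_right h1 hh0
  obtain ⟨t, ht1, ht3⟩ : ∃ t : ℝ, 1 ≤ t ∧ t ^ 3 = max 1 ((h : ℝ) ^ 4 / p) := by
    have h1 : (1 : ℝ) ≤ max 1 ((h : ℝ) ^ 4 / p) := le_max_left _ _
    refine ⟨(max 1 ((h : ℝ) ^ 4 / p)) ^ ((1 : ℝ) / 3), Real.one_le_rpow h1 (by norm_num), ?_⟩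
    rw [← Real.rpow_natCast, ← Real.rpow_mul (by linarith)]
    norm_num
  have hΛ : (h : ℝ) ^ 4 ≤ t ^ 3 * p := by
    rw [ht3]
    have := le_max_right (1 : ℝ) ((h : ℝ) ^ 4 / p)
    rwa [div_le_iff₀ hp0] at this
  obtain ⟨r, hr⟩ : ∃ r : ℝ, r = (h : ℝ) / L := ⟨_, rfl⟩
  have hrL : r * L = h := by
    rw [hr]
    field_simp
  rw [← hr] at hr1
  have hr0 : 0 < r := by linarith
  have hkt : k * t ^ 3 ≤ r := by
    rw [ht3, mul_max_of_nonneg _ _ hk0.le]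
    apply max_le
    · rw [mul_one]
      exact hk1.trans hr1
    · have e1 : k * ((h : ℝ) ^ 4 / p) = (k * h) * (h : ℝ) ^ 3 / p := by ring
      rw [e1, div_le_iff₀ hp0]
      calc k * h * (h : ℝ) ^ 3 ≤ L * (h : ℝ) ^ 3 :=
            mul_le_mul_of_nonneg_right hkL (by positivity)
        _ = L * (h : ℝ) ^ 2 * (r * L) := by rw [hrL]; ring
        _ = r * ((L : ℝ) ^ 2 * (h : ℝ) ^ 2) := by ring
        _ ≤ r * p := by
            apply mul_le_mul_of_nonneg_left _ hr0.le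
            have h2 : (0 : ℝ) ≤ (L : ℝ) ^ 2 * (h : ℝ) ^ 2 := by positivity
            linarith
  set T := (Icc (1 : ℤ) h ×ˢ Icc (1 : ℤ) L ×ˢ Icc (1 : ℤ) L).filter
    (fun z : ℤ × ℤ × ℤ => z.2.1 ≠ z.2.2) with hT
  have hTc : (T.card : ℝ) ≤ h * (L : ℝ) ^ 2 := by
    have h1 : T.card ≤ h * (L * L) := by
      rw [hT]
      refine (card_filter_le _ _).trans ?_
      rw [card_product, card_product, Int.card_Icc, Int.card_Icc]
      simp
    have h2 : (T.card : ℝ) ≤ ((h * (L * L) : ℕ) : ℝ) := by exact_mod_cast h1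
    refine h2.trans (le_of_eq ?_)
    push_cast
    ring
  have key := dyadic_sum T
    (fun z ν => LBWk p h k ((A : ZMod p) * rho p S 0 z.1 z.2.1 z.2.2) ν)
    (fun z => ((Sol p S h (rho p S 0 z.1 z.2.1 z.2.2)).card : ℝ))
    (fun _ => (0 : ℝ))
    (301 * m * r) (2 * m) (2 * m * L * (h : ℝ) ^ 2) h H.hh
    (by positivity) (by positivity) (by positivity)
    (fun z _ => lbwk_one_div H hk0 hk1 _)
    (by
      intro z hz ν hν hν1 hQ
      have h1 := sol_structk H t ht1 hΛ hk0 hk1 hAB (rho p S 0 z.1 z.2.1 z.2.2) ν hν hQ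
      have h2 : 300 * k * t ^ 3 + 1 + 2 / ν ≤ 301 * r + 2 / ν := by
        have e1 : 300 * k * t ^ 3 = 300 * (k * t ^ 3) := by ring
        linarith
      calc ((Sol p S h (rho p S 0 z.1 z.2.1 z.2.2)).card : ℝ)
          ≤ m * (300 * k * t ^ 3 + 1 + 2 / ν) := h1
        _ ≤ m * (301 * r + 2 / ν) := mul_le_mul_of_nonneg_left h2 hm0.le
        _ = 301 * m * r + 2 * m / ν + 0 := by ring)
    (by
      intro ν G hG hGQ hν hν1
      have hν0 : 0 < ν := lt_of_lt_of_le (by positivity) hν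
      have h1 : G ⊆ TSk p S 0 h L k A ν := by
        intro z hz
        have h3 := hG hz
        rw [hT, mem_filter] at h3
        simp only [mem_product, mem_Icc] at h3
        rw [mem_TSk]
        exact ⟨h3.1, h3.2, hGQ z hz⟩
      have h2 : (G.card : ℝ) ≤ (TSk p S 0 h L k A ν).card := by
        exact_mod_cast Finset.card_le_card h1
      exact h2.trans (tinit_card H P hk0 hkL hAB ν hν0 hν1))
  rw [Nat.cast_sum]
  rw [Finset.sum_const_zero, add_zero] at key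
  refine key.trans ?_
  have hlog : (0 : ℝ) ≤ Nat.log 2 h := Nat.cast_nonneg _
  obtain ⟨l, hl⟩ : ∃ l : ℝ, l = 1 + Nat.log 2 h := ⟨_, rfl⟩
  have hl1 : 1 ≤ l := by linarith
  rw [← hl]
  obtain ⟨X, hX⟩ : ∃ X : ℝ, X = (m : ℝ) ^ 2 * L * (h : ℝ) ^ 2 * l := ⟨_, rfl⟩
  have b3 : (T.card : ℝ) * (301 * m * r + 2 * m) ≤ 152 * X := by
    calc (T.card : ℝ) * (301 * m * r + 2 * m) ≤ (h * (L : ℝ) ^ 2) * (303 * m * r) := by
          apply mul_le_mul hTc _ (by positivity) (by positivity)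
          have := mul_le_mul_of_nonneg_left hr1 (by positivity : (0 : ℝ) ≤ 2 * m)
          linarith
      _ = 303 * m * L * h * (r * L) := by ring
      _ = (303 / 2) * (2 * m) * (L * (h : ℝ) ^ 2) := by rw [hrL]; ring
      _ ≤ (303 / 2) * (m * m) * (L * (h : ℝ) ^ 2) := by
          apply mul_le_mul_of_nonneg_right _ (by positivity)
          have := mul_le_mul_of_nonneg_right hm2 hm0.le
          linarith
      _ = (303 / 2) * ((m : ℝ) ^ 2 * L * (h : ℝ) ^ 2) * 1 := by ring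
      _ ≤ 152 * ((m : ℝ) ^ 2 * L * (h : ℝ) ^ 2) * l := by
          apply mul_le_mul _ hl1 zero_le_one (by positivity)
          apply mul_le_mul_of_nonneg_right (by norm_num) (by positivity)
      _ = 152 * X := by rw [hX]; ring
  have b4 : 2 * (2 * (m : ℝ)) * (2 * m * L * (h : ℝ) ^ 2) * l = 8 * X := by rw [hX]; ring
  have b5 : 200 * (m : ℝ) ^ 2 * L * (h : ℝ) ^ 2 * l = 200 * X := by rw [hX]; ring
  have hX0 : 0 ≤ X := by rw [hX]; positivity
  rw [b5, b4]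
  linarith

end Pool.Agent.H.MP_03bc95_nt
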