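import Pool.Agent.H.MP_03bc95_nt.Q.Pc
import Pool.Agent.H.MP_03bc95_nt.Q.Nd
import Pool.Agent.H.MP_03bc95_nt.Q.Dg
import Pool.Agent.H.MP_03bc95_nt.Q.St

open Finset

namespace Pool.Agent.H.MP_03bc95_nt

private theorem parq_lt {p h L : ℕ} (P : ParQ p h L) : h < p ∧ L < p := by
  have h1 := P.hL1
  have h2 := P.hLh
  have h3 := P.hLp
  have hL2 : 1 ≤ L ^ 2 := Nat.one_le_pow _ _ (by omega)
  have hh2 : h ≤ h ^ 2 := Nat.le_self_pow two_ne_zero h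
  have h4 : h ≤ L ^ 2 * h ^ 2 :=
    hh2.trans (Nat.le_mul_of_pos_left _ (by omega))
  have h5 : 1000 * (L ^ 2 * h ^ 2) ≤ p := by
    rw [← mul_assoc]
    exact h3
  omega

/-- `M6 = ∑ ∑ E4` (`m6_eq` with `S3 = 0`) is at most the number of tuples: for `(x, y) ∈ [1,L]²` and a
quadruple of `E4 p S h ((0+y) (0+x)⁻¹)` take the tuple `((y, x), (z1, z2), (z3, z4))`. -/
theorem m6_tup {p : ℕ} [Fact p.Prime] {S : ℤ} {h m L : ℕ} (H : Hyp p S h m) (P : ParQ p h L) :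
    M6 (Itv p S h) (Itv p S h) (Itv p 0 L) ≤ (Tup p S h L).card := by
  classical
  obtain ⟨hhp, hLp⟩ := parq_lt P
  rw [m6_eq hhp hLp H.hS (init_ne hLp)]
  rw [← Finset.sum_product' (s := Icc (1 : ℤ) L) (t := Icc (1 : ℤ) L)
    (f := fun x y => E4 p S h (((0 + y : ℤ) : ZMod p) * (((0 + x : ℤ) : ZMod p))⁻¹))]
  simp only [E4]
  rw [← Finset.card_sigma]
  refine Finset.card_le_card_of_injOn
    (fun a => ((a.1.2, a.1.1), (a.2.1, a.2.2.1), (a.2.2.2.1, a.2.2.2.2))) ?_ ?_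
  · rintro ⟨⟨x, y⟩, x1, x2, y1, y2⟩ ha
    replace ha := Finset.mem_coe.1 ha
    simp only [mem_sigma, mem_product, mem_filter, mem_Icc] at ha
    obtain ⟨⟨hx, hy⟩, ⟨hx1, hx2, hy1, hy2⟩, he⟩ := ha
    have hx0 : ((x : ℤ) : ZMod p) ≠ 0 := by
      have := init_ne hLp x hx.1 hx.2
      rwa [zero_add] at this
    simp only [zero_add] at he
    refine Finset.mem_coe.2 (mem_Tup.2 ⟨⟨hy, hx⟩, ⟨hx1, hx2⟩, ⟨hy1, hy2⟩, ?_⟩)
    rw [he]
    field_simp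
  · rintro ⟨⟨x, y⟩, x1, x2, y1, y2⟩ - ⟨⟨x', y'⟩, x1', x2', y1', y2'⟩ - he
    simp only [Prod.mk.injEq] at he
    obtain ⟨⟨e1, e2⟩, ⟨e3, e4⟩, e5, e6⟩ := he
    subst e1 e2 e3 e4 e5 e6
    rfl

/-- `M([1,L], I, I) ≤ 1000 m³ L h² (1 + log)`. Case `LBS`: `m6_tup`, `Tup` splits into `NTup` and the
degenerate tuples (`filter_card_add_filter_neg_card_eq_card`): `m² (15 L h) h + 6 m L h²`. Otherwise
`exists_abk H (h / L)` gives `k ≤ 1 / (h / L)`, i.e. `k h ≤ L`; the diagonal `e4_one`, the rest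
`struct_init` (copy the second case of `m6n` in N/F1). -/
theorem m6_init {p : ℕ} [Fact p.Prime] {S : ℤ} {h m L : ℕ} (H : Hyp p S h m) (P : ParQ p h L) :
    (M6 (Itv p S h) (Itv p S h) (Itv p 0 L) : ℝ) ≤
      1000 * (m : ℝ) ^ 3 * L * (h : ℝ) ^ 2 * (1 + Nat.log 2 h) := by
  classical
  obtain ⟨hhp, hLp⟩ := parq_lt P
  have hm2 : (2 : ℝ) ≤ m := by exact_mod_cast two_le_of_hyp H
  have hL1 := P.one_le_L
  have hh1 := P.one_le_h
  have hL0 : (0 : ℝ) < L := by linarith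
  have hh0 : (0 : ℝ) < h := by linarith
  have hlog : (0 : ℝ) ≤ Nat.log 2 h := Nat.cast_nonneg _
  have hX : (0 : ℝ) < L * (h : ℝ) ^ 2 := by positivity
  have hm23 : (m : ℝ) ^ 2 ≤ (m : ℝ) ^ 3 := pow_le_pow_right₀ (by linarith) (by norm_num)
  have hm13 : (m : ℝ) ≤ (m : ℝ) ^ 3 := by
    have := pow_le_pow_right₀ (show (1 : ℝ) ≤ m by linarith) (show 1 ≤ 3 by norm_num)
    simpa using this
  by_cases hL : LBS p S h (1 / ((h : ℝ) / L))
  · have h1 : (M6 (Itv p S h) (Itv p S h) (Itv p 0 L) : ℝ) ≤ ((Tup p S h L).card : ℝ) := by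
      exact_mod_cast m6_tup H P
    have h2 := Finset.card_filter_add_card_filter_not (s := Tup p S h L)
      (fun z : (ℤ × ℤ) × (ℤ × ℤ) × (ℤ × ℤ) => z.2.1.1 ≠ z.2.2.1 ∧ z.2.1.2 ≠ z.2.2.1)
    have h3 : ((Tup p S h L).card : ℝ) = ((NTup p S h L).card : ℝ) +
        (((Tup p S h L).filter fun z => ¬ (z.2.1.1 ≠ z.2.2.1 ∧ z.2.1.2 ≠ z.2.2.1)).card : ℝ) := by
      rw [← h2]
      push_cast
      rfl
    have h4 := ntup_card H P
    have h5 := deg_card H P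
    have h6 := ps_card H P hL
    have h7 : (m : ℝ) ^ 2 * ((PS p S h L).card * h) ≤ (m : ℝ) ^ 2 * (15 * L * h * h) := by
      gcongr
    have h8 : (m : ℝ) ^ 2 * (15 * L * h * h) + 6 * m * L * (h : ℝ) ^ 2 ≤
        1000 * (m : ℝ) ^ 3 * (L * (h : ℝ) ^ 2) := by
      have h9 : 15 * (m : ℝ) ^ 2 + 6 * m ≤ 1000 * (m : ℝ) ^ 3 := by linarith
      calc (m : ℝ) ^ 2 * (15 * L * h * h) + 6 * m * L * (h : ℝ) ^ 2
          = (15 * (m : ℝ) ^ 2 + 6 * m) * (L * (h : ℝ) ^ 2) := by ring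
        _ ≤ _ := mul_le_mul_of_nonneg_right h9 hX.le
    have h10 : 1000 * (m : ℝ) ^ 3 * (L * (h : ℝ) ^ 2) ≤
        1000 * (m : ℝ) ^ 3 * L * (h : ℝ) ^ 2 * (1 + Nat.log 2 h) := by
      have h11 : (0 : ℝ) ≤ 1000 * (m : ℝ) ^ 3 * (L * (h : ℝ) ^ 2) := by positivity
      calc 1000 * (m : ℝ) ^ 3 * (L * (h : ℝ) ^ 2)
          ≤ 1000 * (m : ℝ) ^ 3 * (L * (h : ℝ) ^ 2) * (1 + Nat.log 2 h) :=
            le_mul_of_one_le_right h11 (by linarith)
        _ = _ := by ring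
    linarith
  · have hcI : ((Icc (1 : ℤ) L).card : ℝ) = L := by simp
    obtain ⟨k, A, B, hk0, hkt, hAB⟩ := exists_abk H ((h : ℝ) / L) P.one_le_t hL
    have hkL : k * h ≤ L := by
      calc k * h ≤ 1 / ((h : ℝ) / L) * h := mul_le_mul_of_nonneg_right hkt hh0.le
        _ = L := by field_simp
    have hst := struct_init H P hk0 hkL hAB
    have hS3 := init_ne hLp
    rw [m6_eq hhp hLp H.hS hS3]
    set I := Icc (1 : ℤ) L with hI
    let l : ℤ → ℤ → ZMod p := fun x y => ((0 + y : ℤ) : ZMod p) * (((0 + x : ℤ) : ZMod p))⁻¹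
    -- the diagonal
    have hdiag : ∀ x ∈ I, (E4 p S h (l x x) : ℝ) ≤ 2 * m * (h : ℝ) ^ 2 := by
      intro x hx
      have hx' := mem_Icc.1 hx
      have h1 : l x x = 1 := mul_inv_cancel₀ (hS3 x hx'.1 hx'.2)
      rw [h1]
      exact_mod_cast e4_one H
    have hdsum : ∀ c : ℝ, ∑ x ∈ I, ∑ y ∈ I, (if x = y then c else 0) = L * c := by
      intro c
      have h1 : ∀ x ∈ I, ∑ y ∈ I, (if x = y then c else 0) = c := by
        intro x hx
        rw [sum_ite_eq, if_pos hx]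
      rw [sum_congr rfl h1, sum_const, nsmul_eq_mul, hcI]
    have h6 : (L : ℝ) * (2 * m * (h : ℝ) ^ 2) ≤
        2 * m * (L * (h : ℝ) ^ 2) * (1 + Nat.log 2 h) := by
      have h7 : (0 : ℝ) ≤ 2 * m * (L * (h : ℝ) ^ 2) := by positivity
      nlinarith
    have hoff : ∑ x ∈ I, ∑ y ∈ I, (if x = y then 0 else E4 p S h (l x y)) =
        ∑ z ∈ (Icc (1 : ℤ) h ×ˢ Icc (1 : ℤ) L ×ˢ Icc (1 : ℤ) L).filter
          (fun z => z.2.1 ≠ z.2.2), (Sol p S h (rho p S 0 z.1 z.2.1 z.2.2)).card := by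
      rw [sum_filter, sum_product_right, sum_product]
      refine sum_congr rfl fun x _ => sum_congr rfl fun y _ => ?_
      by_cases hxy : x = y
      · subst hxy
        simp
      · rw [if_neg hxy, e4_eq]
        refine sum_congr rfl fun y2 _ => ?_
        rw [if_pos hxy]
        congr 2
        simp only [rho, l]
        ring
    have h1 : ∀ x ∈ I, ∀ y ∈ I, (E4 p S h (l x y) : ℝ) ≤
        (if x = y then 2 * m * (h : ℝ) ^ 2 else 0) +
          ((if x = y then 0 else E4 p S h (l x y) : ℕ) : ℝ) := by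
      intro x hx y hy
      by_cases hxy : x = y
      · subst hxy
        rw [if_pos rfl, if_pos rfl, Nat.cast_zero, add_zero]
        exact hdiag x hx
      · rw [if_neg hxy, if_neg hxy, zero_add]
    have h2 : ((∑ x ∈ I, ∑ y ∈ I, E4 p S h (l x y) : ℕ) : ℝ) ≤
        L * (2 * m * (h : ℝ) ^ 2) +
          ((∑ x ∈ I, ∑ y ∈ I, (if x = y then 0 else E4 p S h (l x y)) : ℕ) : ℝ) := by
      rw [Nat.cast_sum, Nat.cast_sum]
      simp only [Nat.cast_sum]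
      refine (sum_le_sum fun x hx => sum_le_sum fun y hy => h1 x hx y hy).trans (le_of_eq ?_)
      simp only [sum_add_distrib]
      rw [hdsum]
    rw [hoff] at h2
    refine h2.trans ?_
    have h5 : 2 * (m : ℝ) + 200 * (m : ℝ) ^ 2 ≤ 1000 * (m : ℝ) ^ 3 := by linarith
    calc (L : ℝ) * (2 * m * (h : ℝ) ^ 2) + _
        ≤ 2 * m * (L * (h : ℝ) ^ 2) * (1 + Nat.log 2 h) +
          200 * (m : ℝ) ^ 2 * L * (h : ℝ) ^ 2 * (1 + Nat.log 2 h) := add_le_add h6 hst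
      _ = (2 * (m : ℝ) + 200 * (m : ℝ) ^ 2) * ((L * (h : ℝ) ^ 2) * (1 + Nat.log 2 h)) := by
          ring
      _ ≤ 1000 * (m : ℝ) ^ 3 * ((L * (h : ℝ) ^ 2) * (1 + Nat.log 2 h)) :=
          mul_le_mul_of_nonneg_right h5 (by positivity)
      _ = _ := by ring

end Pool.Agent.H.MP_03bc95_nt
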