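import Pool.Agent.H.MP_03bc95_nt.Q.Mx
import Pool.Agent.H.MP_03bc95_nt.Mc

open Finset
open scoped Pointwise

namespace Pool.Agent.H.MP_03bc95_nt

/-- Copy of `clean3` (N/K1) with `m6_initc` in place of `m6_mixed` and `S3 = 0`. -/
theorem clean4 (ε : ℝ) (hε : 0 < ε) : ∃ c : ℝ, 0 < c ∧ ∀ (p : ℕ) [Fact p.Prime]
    (S1 S2 : ℤ) (h1 h2 L : ℕ), 1 ≤ h1 → 1 ≤ h2 → 1 ≤ L →
    100000 * h1 ^ 3 ≤ p → 100000 * h2 ^ 3 ≤ p → 100000 * L ^ 3 ≤ p →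
    (1000 * L ^ 2 * h1 ^ 2 ≤ p ∨ h1 ^ 4 ≤ p) → (1000 * L ^ 2 * h2 ^ 2 ≤ p ∨ h2 ^ 4 ≤ p) →
    (∀ x : ℤ, 1 ≤ x → x ≤ h1 → ((S1 + x : ℤ) : ZMod p) ≠ 0) →
    (∀ x : ℤ, 1 ≤ x → x ≤ h2 → ((S2 + x : ℤ) : ZMod p) ≠ 0) →
    c * ((h1 : ℝ) * h2 * L) ^ (1 - ε) ≤ ((Itv p S1 h1 * Itv p S2 h2 * Itv p 0 L).card : ℝ) := by
  obtain ⟨C, hC1, hC⟩ := m6_initc ε hε
  refine ⟨1 / C, by positivity, ?_⟩
  intro p _ S1 S2 h1 h2 L hh1 hh2 hHn hp1 hp2 hpL hH1 hH2 hS1 hS2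
  have hlt : ∀ h : ℕ, 1 ≤ h → 100000 * h ^ 3 ≤ p → h < p := by
    intro h hh hp
    have h3 : h ≤ h ^ 3 := Nat.le_self_pow (by norm_num) h
    omega
  have hlt1 := hlt h1 hh1 hp1
  have hlt2 := hlt h2 hh2 hp2
  have hltH := hlt L hHn hpL
  have hS3 : ∀ x : ℤ, 1 ≤ x → x ≤ L → ((0 + x : ℤ) : ZMod p) ≠ 0 := init_ne hltH
  have a1 := hC p S1 h1 L hh1 hHn hp1 hpL hH1 hS1
  have a2 := hC p S2 h2 L hh2 hHn hp2 hpL hH2 hS2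
  have a3 := m6_sq_le (Itv p S1 h1) (Itv p S2 h2) (Itv p 0 L) (zero_notMem_itv hS1)
    (zero_notMem_itv hS2) (zero_notMem_itv hS3)
  have a4 := prod_card (Itv p S1 h1) (Itv p S2 h2) (Itv p 0 L)
  rw [itv_card S1 hlt1, itv_card S2 hlt2, itv_card 0 hltH] at a4
  set P : ℕ := (Itv p S1 h1 * Itv p S2 h2 * Itv p 0 L).card with hP
  set M : ℕ := M6 (Itv p S1 h1) (Itv p S2 h2) (Itv p 0 L) with hM
  have a3' : (M : ℝ) ^ 2 ≤ (M6 (Itv p S1 h1) (Itv p S1 h1) (Itv p 0 L) : ℝ) *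
      (M6 (Itv p S2 h2) (Itv p S2 h2) (Itv p 0 L) : ℝ) := by exact_mod_cast a3
  have a4' : ((h1 : ℝ) * h2 * L) ^ 2 ≤ P * M := by exact_mod_cast a4
  have x1 : (1 : ℝ) ≤ h1 := by exact_mod_cast hh1
  have x2 : (1 : ℝ) ≤ h2 := by exact_mod_cast hh2
  have xH : (1 : ℝ) ≤ L := by exact_mod_cast hHn
  have x10 : (0 : ℝ) < h1 := by linarith
  have x20 : (0 : ℝ) < h2 := by linarith
  have xH0 : (0 : ℝ) < L := by linarith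
  have hC0 : (0 : ℝ) < C := by linarith
  set X : ℝ := (h1 : ℝ) * h2 with hX
  have hX1 : 1 ≤ X := by nlinarith
  have hX0 : 0 < X := by linarith
  have hXH0 : 0 < X * L := by positivity
  have a5 : (M : ℝ) ≤ C * (X * L) * (X ^ (ε / 2) * (L : ℝ) ^ ε) := by
    refine (pow_le_pow_iff_left₀ (by positivity) (by positivity) (two_ne_zero)).1
      (a3'.trans ((mul_le_mul a1 a2 (by positivity) (by positivity)).trans (le_of_eq ?_)))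
    have e1 : (h1 : ℝ) ^ ε * (h2 : ℝ) ^ ε = X ^ (ε / 2) * X ^ (ε / 2) := by
      rw [← Real.mul_rpow x10.le x20.le, ← Real.rpow_add hX0]
      congr 1
      ring
    calc C * ((h1 : ℝ) ^ 2 * (h1 : ℝ) ^ ε) * ((L : ℝ) * (L : ℝ) ^ ε) *
          (C * ((h2 : ℝ) ^ 2 * (h2 : ℝ) ^ ε) * ((L : ℝ) * (L : ℝ) ^ ε)) =
        C ^ 2 * ((h1 : ℝ) * h2) ^ 2 * ((h1 : ℝ) ^ ε * (h2 : ℝ) ^ ε) *
          ((L : ℝ) * (L : ℝ) ^ ε) ^ 2 := by ring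
      _ = _ := by rw [e1]; ring
  have a5' : X ^ (ε / 2) * (L : ℝ) ^ ε ≤ (X * L) ^ ε := by
    rw [Real.mul_rpow hX0.le xH0.le]
    exact mul_le_mul_of_nonneg_right
      (Real.rpow_le_rpow_of_exponent_le hX1 (by linarith)) (by positivity)
  have hP0 : (0 : ℝ) ≤ P := Nat.cast_nonneg _
  have a6 : (X * L) ^ 2 ≤ P * (C * (X * L) * (X * L) ^ ε) :=
    a4'.trans (mul_le_mul_of_nonneg_left
      (a5.trans (mul_le_mul_of_nonneg_left a5' (by positivity))) hP0)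
  have hXe : 0 < (X * L) ^ ε := Real.rpow_pos_of_pos hXH0 ε
  have a7 : X * L ≤ P * C * (X * L) ^ ε := by
    refine le_of_mul_le_mul_right ?_ hXH0
    calc X * L * (X * L) = (X * L) ^ 2 := by ring
      _ ≤ _ := a6
      _ = _ := by ring
  have a8 : (X * L) ^ (1 - ε) ≤ P * C := by
    refine le_of_mul_le_mul_right ?_ hXe
    have h3 : (X * L) ^ (1 - ε) * (X * L) ^ ε = X * L := by
      rw [← Real.rpow_add hXH0]
      norm_num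
    rw [h3]
    exact a7
  rw [div_mul_eq_mul_div, one_mul, div_le_iff₀ (by positivity)]
  exact a8

end Pool.Agent.H.MP_03bc95_nt
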