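import Pool.Agent.H.MP_03bc95_nt.Q.Hb
import Pool.Agent.H.MP_03bc95_nt.Mc

open Finset
open scoped Pointwise

namespace Pool.Agent.H.MP_03bc95_nt

/-- One factor. `μ = min h ((p h²)^(1/6))`, `G = max 1 (h^4/p)`. `μ G^(1/6) ≤ h` (if `G = 1`: `μ ≤ h`;
otherwise `μ G^(1/6) ≤ (p h²)^(1/6) (h^4/p)^(1/6) = h`), and `h ≤ μ²` (`h ≤ h³ ≤ p`), so
`μ^(1-ε) = μ μ^(-ε) ≤ μ h^(-ε/2)`. Compare `one_factor` in `TP.lean`. -/
theorem six_factor (ε : ℝ) (hε : 0 < ε) (h p : ℝ) (hh : 1 ≤ h) (hp : h ^ 3 ≤ p) :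
    (min h ((p * h ^ 2) ^ ((1 : ℝ) / 6))) ^ (1 - ε) *
      (h ^ (ε / 2) * (max 1 (h ^ 4 / p)) ^ ((1 : ℝ) / 6)) ≤ h := by
  have hh0 : 0 < h := by linarith
  have hh3 : h ≤ h ^ 3 := le_self_pow₀ hh (by norm_num)
  have hp0 : 0 < p := lt_of_lt_of_le (pow_pos hh0 3) hp
  have hhp : h ≤ p := hh3.trans hp
  obtain ⟨G, hG⟩ : ∃ G : ℝ, G = max 1 (h ^ 4 / p) := ⟨_, rfl⟩
  obtain ⟨v, hv⟩ : ∃ v : ℝ, v = (p * h ^ 2) ^ ((1 : ℝ) / 6) := ⟨_, rfl⟩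
  obtain ⟨μ, hμ⟩ : ∃ μ : ℝ, μ = min h v := ⟨_, rfl⟩
  rw [← hG, ← hv, ← hμ]
  have hG1 : 1 ≤ G := hG ▸ le_max_left _ _
  have hv6 : v ^ 6 = p * h ^ 2 := by
    rw [hv, ← Real.rpow_natCast, ← Real.rpow_mul (by positivity)]
    norm_num
  have hv0 : 0 < v := by
    rw [hv]
    positivity
  have hμ0 : 0 < μ := hμ ▸ lt_min hh0 hv0
  have hμh : μ ≤ h := hμ ▸ min_le_left _ _
  have hμv : μ ≤ v := hμ ▸ min_le_right _ _
  have hμ2 : h ≤ μ ^ 2 := by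
    rw [hμ]
    rcases min_choice h v with h1 | h1
    · rw [h1]
      nlinarith
    · rw [h1]
      have h2 : h ^ 3 ≤ (v ^ 2) ^ 3 := by
        rw [← pow_mul, hv6]
        have h4 : 0 < h ^ 2 := by positivity
        nlinarith
      exact le_of_pow_le_pow_left₀ (by norm_num) (by positivity) h2
  have hX : μ * G ^ ((1 : ℝ) / 6) ≤ h := by
    refine le_of_pow_le_pow_left₀ (n := 6) (by norm_num) (by positivity) ?_
    have h5 : (G ^ ((1 : ℝ) / 6)) ^ 6 = G := by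
      rw [← Real.rpow_natCast, ← Real.rpow_mul (by linarith)]
      norm_num
    rw [mul_pow, h5]
    rw [hG]
    rcases max_choice 1 (h ^ 4 / p) with h1 | h1
    · rw [h1, mul_one]
      exact pow_le_pow_left₀ hμ0.le hμh _
    · rw [h1]
      have h6 : μ ^ 6 ≤ p * h ^ 2 := by
        rw [← hv6]
        exact pow_le_pow_left₀ hμ0.le hμv _
      calc μ ^ 6 * (h ^ 4 / p) ≤ p * h ^ 2 * (h ^ 4 / p) :=
            mul_le_mul_of_nonneg_right h6 (by positivity)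
        _ = h ^ 6 := by
            field_simp
  have hY : μ ^ (1 - ε) ≤ μ * h ^ (-(ε / 2)) := by
    have h7 : μ ^ (1 - ε) = μ * (μ ^ 2) ^ (-(ε / 2)) := by
      rw [← Real.rpow_natCast μ 2, ← Real.rpow_mul hμ0.le]
      nth_rewrite 2 [← Real.rpow_one μ]
      rw [← Real.rpow_add hμ0]
      congr 1
      push_cast
      ring
    rw [h7]
    refine mul_le_mul_of_nonneg_left ?_ hμ0.le
    exact Real.rpow_le_rpow_of_nonpos hh0 hμ2 (by linarith)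
  have hZ : h ^ (-(ε / 2)) * h ^ (ε / 2) = 1 := by
    rw [← Real.rpow_add hh0]
    simp
  have hG0 : 0 ≤ G ^ ((1 : ℝ) / 6) := by positivity
  calc μ ^ (1 - ε) * (h ^ (ε / 2) * G ^ ((1 : ℝ) / 6))
      ≤ μ * h ^ (-(ε / 2)) * (h ^ (ε / 2) * G ^ ((1 : ℝ) / 6)) :=
        mul_le_mul_of_nonneg_right hY (by positivity)
    _ = μ * G ^ ((1 : ℝ) / 6) * (h ^ (-(ε / 2)) * h ^ (ε / 2)) := by ring
    _ = μ * G ^ ((1 : ℝ) / 6) := by rw [hZ, mul_one]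
    _ ≤ h := hX

private theorem Cm_third (G : ℝ) (hG : 0 ≤ G) :
    G ^ ((1 : ℝ) / 3) = (G ^ ((1 : ℝ) / 6)) ^ 2 := by
  rw [← Real.rpow_natCast, ← Real.rpow_mul hG]
  norm_num

/-- Three intervals, one initial, from `m6_holder ε`. PROOF. As in `clean3` (N/K1) and `clean2` (TP):
`(h1 h2 L)² ≤ P M`, `M² ≤ M6(I1,I1,A) M6(I2,I2,A)`, so
`M ≤ C h1 h2 L (h1^(ε/2) G1^(1/6)) (h2^(ε/2) G2^(1/6)) L^ε`. With `Yi = μi^(1-ε)` (`six_factor`):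
`L^(1-ε) Y1 Y2 M ≤ C (h1 h2 L)² ≤ C P M`, `M > 0`. Here `(L μ1 μ2)^(1-ε) = L^(1-ε) Y1 Y2`
(`Real.mul_rpow`). -/
theorem clean5 (ε : ℝ) (hε : 0 < ε) : ∃ c : ℝ, 0 < c ∧ ∀ (p : ℕ) [Fact p.Prime]
    (S1 S2 : ℤ) (h1 h2 L : ℕ), 1 ≤ h1 → 1 ≤ h2 → 1 ≤ L →
    100000 * h1 ^ 3 ≤ p → 100000 * h2 ^ 3 ≤ p → 100000 * L ^ 3 ≤ p →
    (∀ x : ℤ, 1 ≤ x → x ≤ h1 → ((S1 + x : ℤ) : ZMod p) ≠ 0) →
    (∀ x : ℤ, 1 ≤ x → x ≤ h2 → ((S2 + x : ℤ) : ZMod p) ≠ 0) →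
    c * ((L : ℝ) * min (h1 : ℝ) (((p : ℝ) * (h1 : ℝ) ^ 2) ^ ((1 : ℝ) / 6)) *
      min (h2 : ℝ) (((p : ℝ) * (h2 : ℝ) ^ 2) ^ ((1 : ℝ) / 6))) ^ (1 - ε) ≤
      ((Itv p S1 h1 * Itv p S2 h2 * Itv p 0 L).card : ℝ) := by
  obtain ⟨C, hC1, hC⟩ := m6_holder ε hε
  have hC0 : 0 < C := by linarith
  refine ⟨C⁻¹, inv_pos.2 hC0, fun p hpp S1 S2 h1 h2 L hh1 hh2 hL hp1 hp2 hpL hS1 hS2 => ?_⟩
  have hlt : ∀ h : ℕ, 1 ≤ h → 100000 * h ^ 3 ≤ p → h < p := by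
    intro h hh hp
    have h3 : h ≤ h ^ 3 := Nat.le_self_pow (by norm_num) h
    omega
  have hlt1 := hlt h1 hh1 hp1
  have hlt2 := hlt h2 hh2 hp2
  have hltL := hlt L hL hpL
  have hL0 : (0 : ZMod p) ∉ Itv p 0 L := by
    refine zero_notMem_itv fun x hx1 hx2 h0 => ?_
    rw [zero_add, ZMod.intCast_zmod_eq_zero_iff_dvd] at h0
    have := Int.le_of_dvd (by omega) h0
    omega
  have k1 := hC p S1 h1 L hh1 hL hp1 hpL hS1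
  have k2 := hC p S2 h2 L hh2 hL hp2 hpL hS2
  have a3 := m6_sq_le (Itv p S1 h1) (Itv p S2 h2) (Itv p 0 L) (zero_notMem_itv hS1)
    (zero_notMem_itv hS2) hL0
  have a4 := prod_card (Itv p S1 h1) (Itv p S2 h2) (Itv p 0 L)
  rw [itv_card S1 hlt1, itv_card S2 hlt2, itv_card 0 hltL] at a4
  have f1 := six_factor ε hε (h1 : ℝ) (p : ℝ) (by exact_mod_cast hh1) (by
    have : h1 ^ 3 ≤ p := by omega
    exact_mod_cast this)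
  have f2 := six_factor ε hε (h2 : ℝ) (p : ℝ) (by exact_mod_cast hh2) (by
    have : h2 ^ 3 ≤ p := by omega
    exact_mod_cast this)
  have x1 : (1 : ℝ) ≤ h1 := by exact_mod_cast hh1
  have x2 : (1 : ℝ) ≤ h2 := by exact_mod_cast hh2
  have xL : (1 : ℝ) ≤ L := by exact_mod_cast hL
  have hp0 : (0 : ℝ) ≤ p := Nat.cast_nonneg p
  have m1 : 0 ≤ min (h1 : ℝ) (((p : ℝ) * (h1 : ℝ) ^ 2) ^ ((1 : ℝ) / 6)) :=
    le_min (by linarith) (by positivity)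
  have m2 : 0 ≤ min (h2 : ℝ) (((p : ℝ) * (h2 : ℝ) ^ 2) ^ ((1 : ℝ) / 6)) :=
    le_min (by linarith) (by positivity)
  rw [Real.mul_rpow (by positivity) m2, Real.mul_rpow (by linarith) m1]
  have y1 := Real.rpow_nonneg m1 (1 - ε)
  have y2 := Real.rpow_nonneg m2 (1 - ε)
  have g1 : (0 : ℝ) < max 1 ((h1 : ℝ) ^ 4 / p) := lt_max_of_lt_left one_pos
  have g2 : (0 : ℝ) < max 1 ((h2 : ℝ) ^ 4 / p) := lt_max_of_lt_left one_pos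
  have r1 : (max 1 ((h1 : ℝ) ^ 4 / p)) ^ ((1 : ℝ) / 3) =
      ((max 1 ((h1 : ℝ) ^ 4 / p)) ^ ((1 : ℝ) / 6)) ^ 2 := Cm_third _ g1.le
  have r2 : (max 1 ((h2 : ℝ) ^ 4 / p)) ^ ((1 : ℝ) / 3) =
      ((max 1 ((h2 : ℝ) ^ 4 / p)) ^ ((1 : ℝ) / 6)) ^ 2 := Cm_third _ g2.le
  have s1 : (h1 : ℝ) ^ ε = ((h1 : ℝ) ^ (ε / 2)) ^ 2 := by
    rw [← Real.rpow_natCast, ← Real.rpow_mul (by linarith)]
    congr 1
    push_cast
    ring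
  have s2 : (h2 : ℝ) ^ ε = ((h2 : ℝ) ^ (ε / 2)) ^ 2 := by
    rw [← Real.rpow_natCast, ← Real.rpow_mul (by linarith)]
    congr 1
    push_cast
    ring
  rw [r1, s1] at k1
  rw [r2, s2] at k2
  have t1 : (0 : ℝ) < (max 1 ((h1 : ℝ) ^ 4 / p)) ^ ((1 : ℝ) / 6) := Real.rpow_pos_of_pos g1 _
  have t2 : (0 : ℝ) < (max 1 ((h2 : ℝ) ^ 4 / p)) ^ ((1 : ℝ) / 6) := Real.rpow_pos_of_pos g2 _
  have u1 : (0 : ℝ) < (h1 : ℝ) ^ (ε / 2) := Real.rpow_pos_of_pos (by linarith) _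
  have u2 : (0 : ℝ) < (h2 : ℝ) ^ (ε / 2) := Real.rpow_pos_of_pos (by linarith) _
  have w0 : (0 : ℝ) < (L : ℝ) ^ ε := Real.rpow_pos_of_pos (by linarith) _
  have w1 : (0 : ℝ) < (L : ℝ) ^ (1 - ε) := Real.rpow_pos_of_pos (by linarith) _
  have w2 : (L : ℝ) ^ (1 - ε) * (L : ℝ) ^ ε = L := by
    rw [← Real.rpow_add (by linarith)]
    norm_num
  have hM0 : 0 < M6 (Itv p S1 h1) (Itv p S2 h2) (Itv p 0 L) := by
    rcases Nat.eq_zero_or_pos (M6 (Itv p S1 h1) (Itv p S2 h2) (Itv p 0 L)) with h | h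
    · rw [h, mul_zero] at a4
      have : 0 < (h1 * h2 * L) ^ 2 := by positivity
      omega
    · exact h
  generalize (Itv p S1 h1 * Itv p S2 h2 * Itv p 0 L).card = n at a4 ⊢
  generalize M6 (Itv p S1 h1) (Itv p S2 h2) (Itv p 0 L) = M at a3 a4 hM0
  generalize M6 (Itv p S1 h1) (Itv p S1 h1) (Itv p 0 L) = M1 at k1 a3
  generalize M6 (Itv p S2 h2) (Itv p S2 h2) (Itv p 0 L) = M2 at k2 a3
  generalize (min (h1 : ℝ) (((p : ℝ) * (h1 : ℝ) ^ 2) ^ ((1 : ℝ) / 6))) ^ (1 - ε) = Y1 at f1 y1 ⊢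
  generalize (min (h2 : ℝ) (((p : ℝ) * (h2 : ℝ) ^ 2) ^ ((1 : ℝ) / 6))) ^ (1 - ε) = Y2 at f2 y2 ⊢
  generalize (max 1 ((h1 : ℝ) ^ 4 / p)) ^ ((1 : ℝ) / 6) = T1 at f1 t1 k1
  generalize (max 1 ((h2 : ℝ) ^ 4 / p)) ^ ((1 : ℝ) / 6) = T2 at f2 t2 k2
  generalize (h1 : ℝ) ^ (ε / 2) = U1 at f1 u1 k1
  generalize (h2 : ℝ) ^ (ε / 2) = U2 at f2 u2 k2
  generalize (L : ℝ) ^ ε = W at w0 w2 k1 k2
  generalize (L : ℝ) ^ (1 - ε) = Z at w1 w2 ⊢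
  have a3' : (M : ℝ) ^ 2 ≤ (M1 : ℝ) * (M2 : ℝ) := by exact_mod_cast a3
  have a4' : ((h1 : ℝ) * h2 * L) ^ 2 ≤ n * M := by exact_mod_cast a4
  have hMr : (0 : ℝ) < M := by exact_mod_cast hM0
  have hM : (M : ℝ) ≤ C * (h1 * h2 * L) * (U1 * T1) * (U2 * T2) * W := by
    refine (pow_le_pow_iff_left₀ (by positivity) (by positivity) (two_ne_zero)).1
      (a3'.trans ((mul_le_mul k1 k2 (by positivity) (by positivity)).trans (le_of_eq ?_)))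
    ring
  have e1 : (Y1 * (U1 * T1)) * (Y2 * (U2 * T2)) ≤ h1 * h2 :=
    mul_le_mul f1 f2 (by positivity) (by positivity)
  have hfin : Z * Y1 * Y2 * M ≤ C * n * M := by
    calc Z * Y1 * Y2 * M ≤ Z * Y1 * Y2 * (C * (h1 * h2 * L) * (U1 * T1) * (U2 * T2) * W) :=
          mul_le_mul_of_nonneg_left hM (by positivity)
      _ = C * (h1 * h2 * L) * (Z * W) * ((Y1 * (U1 * T1)) * (Y2 * (U2 * T2))) := by ring
      _ = C * (h1 * h2 * L) * L * ((Y1 * (U1 * T1)) * (Y2 * (U2 * T2))) := by rw [w2]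
      _ ≤ C * (h1 * h2 * L) * L * (h1 * h2) := mul_le_mul_of_nonneg_left e1 (by positivity)
      _ = C * ((h1 * h2 * L) ^ 2) := by ring
      _ ≤ C * (n * M) := mul_le_mul_of_nonneg_left a4' hC0.le
      _ = C * n * M := by ring
  have h9 : Z * Y1 * Y2 ≤ C * n := le_of_mul_le_mul_right hfin hMr
  rw [inv_mul_le_iff₀ hC0]
  exact h9

end Pool.Agent.H.MP_03bc95_nt
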