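import Pool.Agent.H.MP_03bc95_nt.Q.Def
import Pool.Agent.H.MP_03bc95_nt.TE0
import Pool.Agent.H.MP_03bc95_nt.Mb

open Finset

namespace Pool.Agent.H.MP_03bc95_nt

/-- The sixth moment of an initial interval: for `L³ < p`, `M([1,L],[1,L],[1,L]) ≤ m² L³`. PROOF. A
tuple of `M6` is given by integers `a1, a2, a3, b1, b2, b3 ∈ [1,L]` (`Ma_mem`) with
`a1 a2 a3 = b1 b2 b3` modulo `p`; both sides are in `[1, L³]`, `L³ < p`, so they are equal. For given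
`(a1, a2, a3)` (`L³` choices) `b1` and `b2` divide `n = a1 a2 a3 ≤ L³ ≤ 1000 L^6` (`div_card` with
`x = 0`: `m²` pairs) and `b3` is determined. -/
theorem cube_init {p : ℕ} [Fact p.Prime] {L m : ℕ} (hL1 : 1 ≤ L) (hLp : L ^ 3 < p)
    (hm : DivB m L) :
    (M6 (Itv p 0 L) (Itv p 0 L) (Itv p 0 L) : ℝ) ≤ (m : ℝ) ^ 2 * (L : ℝ) ^ 3 := by
  classical
  set I := Icc (1 : ℤ) L with hI
  have hL0 : (1 : ℤ) ≤ L := by exact_mod_cast hL1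
  have hcI : I.card = L := by simp [hI]
  let W : Finset ((_ : ℤ × ℤ × ℤ) × (ℤ × ℤ)) :=
    (I ×ˢ I ×ˢ I).sigma fun a =>
      (I ×ˢ I).filter fun b => b.1 ∣ a.1 * a.2.1 * a.2.2 ∧ b.2 ∣ a.1 * a.2.1 * a.2.2
  let g : ((_ : ℤ × ℤ × ℤ) × (ℤ × ℤ)) → (ZMod p × ZMod p × ZMod p) × (ZMod p × ZMod p × ZMod p) :=
    fun w => (((w.1.1 : ZMod p), (w.1.2.1 : ZMod p), (w.1.2.2 : ZMod p)),
      ((w.2.1 : ZMod p), (w.2.2 : ZMod p),
        ((w.1.1 * w.1.2.1 * w.1.2.2 / (w.2.1 * w.2.2) : ℤ) : ZMod p)))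
  have hprod : ∀ a b c : ℤ, (1 ≤ a ∧ a ≤ L) → (1 ≤ b ∧ b ≤ L) → (1 ≤ c ∧ c ≤ L) →
      1 ≤ a * b * c ∧ a * b * c ≤ (L : ℤ) ^ 3 := by
    intro a b c ha hb hc
    have h1 : 1 ≤ a * b := by nlinarith [ha.1, hb.1]
    have h2 : a * b ≤ L * L := mul_le_mul ha.2 hb.2 (by linarith [hb.1]) (by linarith)
    refine ⟨by nlinarith [hc.1], ?_⟩
    calc a * b * c ≤ L * L * L :=
          mul_le_mul h2 hc.2 (by linarith [hc.1]) (by nlinarith)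
      _ = (L : ℤ) ^ 3 := by ring
  have hW : W.card ≤ L ^ 3 * m ^ 2 := by
    have h1 : W.card = ∑ a ∈ I ×ˢ I ×ˢ I, ((I ×ˢ I).filter fun b =>
        b.1 ∣ a.1 * a.2.1 * a.2.2 ∧ b.2 ∣ a.1 * a.2.1 * a.2.2).card := Finset.card_sigma _ _
    rw [h1]
    have h2 : ∀ a ∈ I ×ˢ I ×ˢ I, ((I ×ˢ I).filter fun b =>
        b.1 ∣ a.1 * a.2.1 * a.2.2 ∧ b.2 ∣ a.1 * a.2.1 * a.2.2).card ≤ m ^ 2 := by
      intro a ha
      rw [mem_product, mem_product] at ha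
      have hp3 := hprod a.1 a.2.1 a.2.2 (mem_Icc.1 ha.1) (mem_Icc.1 ha.2.1) (mem_Icc.1 ha.2.2)
      refine div_pair_card hm _ 0 (a.1 * a.2.1 * a.2.2) (by linarith [hp3.1]) ?_ ?_
      · rw [abs_of_pos (by linarith [hp3.1])]
        have h3 : (L : ℤ) ^ 3 ≤ (L : ℤ) ^ 6 := pow_le_pow_right₀ hL0 (by norm_num)
        have h4 : (0 : ℤ) ≤ (L : ℤ) ^ 6 := by positivity
        linarith [hp3.2]
      · intro q hq
        rw [mem_filter] at hq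
        rw [sub_zero, sub_zero]
        exact hq.2
    calc ∑ a ∈ I ×ˢ I ×ˢ I, ((I ×ˢ I).filter fun b =>
        b.1 ∣ a.1 * a.2.1 * a.2.2 ∧ b.2 ∣ a.1 * a.2.1 * a.2.2).card
        ≤ ∑ _a ∈ I ×ˢ I ×ˢ I, m ^ 2 := Finset.sum_le_sum h2
      _ = L ^ 3 * m ^ 2 := by
          rw [Finset.sum_const, card_product, card_product, hcI, smul_eq_mul]
          ring
  have hsub : M6 (Itv p 0 L) (Itv p 0 L) (Itv p 0 L) ≤ W.card := by
    refine le_trans ?_ (Finset.card_image_le (s := W) (f := g))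
    unfold M6
    refine Finset.card_le_card ?_
    rintro ⟨⟨a, b, c⟩, a', b', c'⟩ hz
    simp only [mem_filter, mem_product] at hz
    obtain ⟨⟨⟨ha, hb, hc⟩, ha', hb', hc'⟩, he⟩ := hz
    obtain ⟨x1, hx1, rfl⟩ := Ma_mem.1 ha
    obtain ⟨x2, hx2, rfl⟩ := Ma_mem.1 hb
    obtain ⟨x3, hx3, rfl⟩ := Ma_mem.1 hc
    obtain ⟨y1, hy1, rfl⟩ := Ma_mem.1 ha'
    obtain ⟨y2, hy2, rfl⟩ := Ma_mem.1 hb'
    obtain ⟨y3, hy3, rfl⟩ := Ma_mem.1 hc'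
    simp only [zero_add] at he ⊢
    have hX := hprod x1 x2 x3 hx1 hx2 hx3
    have hY := hprod y1 y2 y3 hy1 hy2 hy3
    have hLp' : (L : ℤ) ^ 3 < p := by exact_mod_cast hLp
    have heq : x1 * x2 * x3 = y1 * y2 * y3 := by
      have h1 : ((x1 * x2 * x3 - y1 * y2 * y3 : ℤ) : ZMod p) = 0 := by
        push_cast
        rw [he, sub_self]
      rw [ZMod.intCast_zmod_eq_zero_iff_dvd] at h1
      have h2 : x1 * x2 * x3 - y1 * y2 * y3 = 0 := by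
        refine Int.eq_zero_of_abs_lt_dvd h1 ?_
        rw [abs_lt]
        constructor <;> linarith [hX.1, hX.2, hY.1, hY.2]
      linarith
    rw [mem_image]
    refine ⟨⟨(x1, x2, x3), (y1, y2)⟩, ?_, ?_⟩
    · simp only [W, mem_sigma, mem_product, mem_filter]
      refine ⟨⟨mem_Icc.2 hx1, mem_Icc.2 hx2, mem_Icc.2 hx3⟩, ⟨mem_Icc.2 hy1, mem_Icc.2 hy2⟩, ?_, ?_⟩
      · rw [heq]
        exact ⟨y2 * y3, by ring⟩
      · rw [heq]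
        exact ⟨y1 * y3, by ring⟩
    · have h3 : x1 * x2 * x3 / (y1 * y2) = y3 := by
        rw [heq]
        have h4 : y1 * y2 ≠ 0 := by
          have := mul_pos (show (0 : ℤ) < y1 by linarith [hy1.1]) (show (0 : ℤ) < y2 by linarith [hy2.1])
          exact this.ne'
        exact Int.mul_ediv_cancel_left y3 h4
      simp only [g, h3]
  have hfin : M6 (Itv p 0 L) (Itv p 0 L) (Itv p 0 L) ≤ m ^ 2 * L ^ 3 := by
    rw [mul_comm]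
    exact hsub.trans hW
  exact_mod_cast hfin

/-- `cube_init` with `exists_m` (`m² ≤ m³ (1 + log)`, `2 ≤ m`: `DivB m L` with `n = 1`). -/
theorem cube_init_clean (δ : ℝ) (hδ : 0 < δ) : ∃ C : ℝ, 1 ≤ C ∧ ∀ (p : ℕ) [Fact p.Prime] (L : ℕ),
    1 ≤ L → L ^ 3 < p →
    (M6 (Itv p 0 L) (Itv p 0 L) (Itv p 0 L) : ℝ) ≤ C * ((L : ℝ) ^ 3 * (L : ℝ) ^ δ) := by
  obtain ⟨C, hC, h⟩ := exists_m δ hδ
  refine ⟨C, hC, fun p _ L hL1 hLp => ?_⟩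
  obtain ⟨m, hm, hmC⟩ := h L hL1
  have h1 := cube_init hL1 hLp hm
  have hL0 : (1 : ℝ) ≤ L := by exact_mod_cast hL1
  have hm1 : (1 : ℝ) ≤ m := by
    have h2 := hm 1 one_ne_zero (by
      have h3 : (1 : ℤ) ≤ (L : ℤ) ^ 6 := one_le_pow₀ (by exact_mod_cast hL1)
      rw [abs_one]
      linarith)
    have h4 : 1 ≤ m := by
      simp only [Int.natAbs_one, Nat.divisors_one, Finset.card_singleton] at h2
      omega
    exact_mod_cast h4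
  have hlog : (0 : ℝ) ≤ Nat.log 2 L := Nat.cast_nonneg _
  have h5 : (m : ℝ) ^ 2 ≤ (m : ℝ) ^ 3 * (1 + Nat.log 2 L) := by
    have h6 : (m : ℝ) ^ 2 ≤ (m : ℝ) ^ 3 := pow_le_pow_right₀ hm1 (by norm_num)
    have h7 : (0 : ℝ) ≤ (m : ℝ) ^ 3 := by positivity
    nlinarith
  refine h1.trans ?_
  calc (m : ℝ) ^ 2 * (L : ℝ) ^ 3 ≤ (C * (L : ℝ) ^ δ) * (L : ℝ) ^ 3 :=
        mul_le_mul_of_nonneg_right (h5.trans hmC) (by positivity)
    _ = C * ((L : ℝ) ^ 3 * (L : ℝ) ^ δ) := by ring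

end Pool.Agent.H.MP_03bc95_nt
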