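import Pool.Agent.H.MP_03bc95_nt.N.D2
import Pool.Agent.H.MP_03bc95_nt.TM
import Pool.Agent.H.MP_03bc95_nt.TN
import Pool.Agent.H.MP_03bc95_nt.TO

/-!
# MP_03bc95 : one initial interval, definitions

`[1,L] · I · I`, `I = S + {1..h}`, `L ≤ h`, `1000 L^2 h^2 ≤ p`. Polynomials
`b (X+x1)(X+x2) - a (X+y1)(X+y2)` vanishing at `S` modulo `p`.
-/

open Finset

namespace Pool.Agent.H.MP_03bc95_nt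

/-- The conditions on the lengths. -/
structure ParQ (p h L : ℕ) : Prop where
  hL1 : 1 ≤ L
  hLh : L ≤ h
  hLp : 1000 * L ^ 2 * h ^ 2 ≤ p

/-- Tuples `((a, b), (x1, x2), (y1, y2))`, `a, b ∈ [1,L]`, the others in `[1,h]`, with
`b (S+x1)(S+x2) = a (S+y1)(S+y2)` modulo `p`. -/
noncomputable def Tup (p : ℕ) (S : ℤ) (h L : ℕ) : Finset ((ℤ × ℤ) × (ℤ × ℤ) × (ℤ × ℤ)) :=
  ((Icc (1 : ℤ) L ×ˢ Icc (1 : ℤ) L) ×ˢ (Icc (1 : ℤ) h ×ˢ Icc (1 : ℤ) h) ×ˢ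
    (Icc (1 : ℤ) h ×ˢ Icc (1 : ℤ) h)).filter fun z =>
    (z.1.2 : ZMod p) * (((S + z.2.1.1 : ℤ) : ZMod p) * ((S + z.2.1.2 : ℤ) : ZMod p)) =
      (z.1.1 : ZMod p) * (((S + z.2.2.1 : ℤ) : ZMod p) * ((S + z.2.2.2 : ℤ) : ZMod p))

theorem mem_Tup {p : ℕ} {S : ℤ} {h L : ℕ} {a b x1 x2 y1 y2 : ℤ} :
    ((a, b), (x1, x2), (y1, y2)) ∈ Tup p S h L ↔
      ((1 ≤ a ∧ a ≤ L) ∧ (1 ≤ b ∧ b ≤ L)) ∧ ((1 ≤ x1 ∧ x1 ≤ h) ∧ (1 ≤ x2 ∧ x2 ≤ h)) ∧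
      ((1 ≤ y1 ∧ y1 ≤ h) ∧ (1 ≤ y2 ∧ y2 ≤ h)) ∧
      (b : ZMod p) * (((S + x1 : ℤ) : ZMod p) * ((S + x2 : ℤ) : ZMod p)) =
        (a : ZMod p) * (((S + y1 : ℤ) : ZMod p) * ((S + y2 : ℤ) : ZMod p)) := by
  simp only [Tup, mem_filter, mem_product, mem_Icc]
  tauto

/-- Integer polynomials `α X² + β X + γ` with `|α| ≤ L`, `|β| ≤ 2 L h`, `|γ| ≤ L h²` and
`α S² + β S + γ = 0` modulo `p`. -/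
noncomputable def PS (p : ℕ) (S : ℤ) (h L : ℕ) : Finset (ℤ × ℤ × ℤ) :=
  (Icc (-(L : ℤ)) L ×ˢ Icc (-(2 * (L : ℤ) * h)) (2 * L * h) ×ˢ
    Icc (-((L : ℤ) * h ^ 2)) (L * h ^ 2)).filter fun f =>
    ((f.1 * S ^ 2 + f.2.1 * S + f.2.2 : ℤ) : ZMod p) = 0

theorem mem_PS {p : ℕ} {S : ℤ} {h L : ℕ} {f : ℤ × ℤ × ℤ} :
    f ∈ PS p S h L ↔ (|f.1| ≤ L ∧ |f.2.1| ≤ 2 * L * h ∧ |f.2.2| ≤ L * h ^ 2) ∧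
      ((f.1 * S ^ 2 + f.2.1 * S + f.2.2 : ℤ) : ZMod p) = 0 := by
  simp only [PS, mem_filter, mem_product, mem_Icc, abs_le]

/-- Quadruples `((a, b), (x, y))`, `a, b ∈ [1,L]`, `x, y ∈ [1,h]`, with `b (S+x) = a (S+y)`. -/
noncomputable def Lin (p : ℕ) (S : ℤ) (h L : ℕ) : Finset ((ℤ × ℤ) × (ℤ × ℤ)) :=
  ((Icc (1 : ℤ) L ×ˢ Icc (1 : ℤ) L) ×ˢ (Icc (1 : ℤ) h ×ˢ Icc (1 : ℤ) h)).filter fun z =>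
    (z.1.2 : ZMod p) * ((S + z.2.1 : ℤ) : ZMod p) = (z.1.1 : ZMod p) * ((S + z.2.2 : ℤ) : ZMod p)

theorem mem_Lin {p : ℕ} {S : ℤ} {h L : ℕ} {a b x y : ℤ} :
    ((a, b), (x, y)) ∈ Lin p S h L ↔
      ((1 ≤ a ∧ a ≤ L) ∧ (1 ≤ b ∧ b ≤ L)) ∧ ((1 ≤ x ∧ x ≤ h) ∧ (1 ≤ y ∧ y ≤ h)) ∧
      (b : ZMod p) * ((S + x : ℤ) : ZMod p) = (a : ZMod p) * ((S + y : ℤ) : ZMod p) := by
  simp only [Lin, mem_filter, mem_product, mem_Icc]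
  tauto

namespace ParQ

variable {p h L : ℕ}

theorem one_le_L (P : ParQ p h L) : (1 : ℝ) ≤ L := by exact_mod_cast P.hL1

theorem L_le (P : ParQ p h L) : (L : ℝ) ≤ h := by exact_mod_cast P.hLh

theorem one_le_h (P : ParQ p h L) : (1 : ℝ) ≤ h := P.one_le_L.trans P.L_le

/-- `1000 L² h² ≤ p`. -/
theorem le_p (P : ParQ p h L) : 1000 * (L : ℝ) ^ 2 * (h : ℝ) ^ 2 ≤ p := by
  exact_mod_cast P.hLp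

/-- `1 ≤ h / L`. -/
theorem one_le_t (P : ParQ p h L) : (1 : ℝ) ≤ h / L := by
  have h1 := P.one_le_L
  rw [le_div_iff₀ (by linarith), one_mul]
  exact P.L_le

end ParQ

end Pool.Agent.H.MP_03bc95_nt
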