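import Pool.Agent.H.MP_03bc95_nt.Q.Def
import Pool.Agent.H.MP_03bc95_nt.TE0
import Pool.Agent.H.MP_03bc95_nt.TF0

open Finset

namespace Pool.Agent.H.MP_03bc95_nt

/-- `x ≠ 0` modulo `p` for `x ∈ [1,L]`. -/
theorem init_ne {p : ℕ} [Fact p.Prime] {L : ℕ} (hLp : L < p) (x : ℤ) (h1 : 1 ≤ x) (h2 : x ≤ L) :
    ((0 + x : ℤ) : ZMod p) ≠ 0 := by
  rw [zero_add]
  apply zmod_ne_zero_Sc x (by omega)
  have h3 : (0 : ℝ) ≤ (x : ℝ) := by
    have : (0 : ℤ) ≤ x := by omega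
    exact_mod_cast this
  rw [abs_of_nonneg h3]
  have h4 : x < (p : ℤ) := by omega
  exact_mod_cast h4

/-- The exceptional set for the initial interval (`S3 = 0`). PROOF. `tsk_data` with `S3 = 0`, `Hn = L`
(`k ≤ 1` since `k h ≤ L ≤ h`): integers `w1, g1 ≠ 0`, `|g1| ≤ h ν`, `Y = B + A z1 ≠ 0`,
`|Y| ≤ 2 k h² ≤ 2 L h`, and the last congruence says `g1 Y (y - x) - (w1 - g1 Y) x = 0` modulo `p`; its
absolute value is at most `10 k h³ ν L ≤ 10 L² h² < p`, so it is an equality of integers: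
`g1 Y y = w1 x`. So `x` divides `n = g1 Y y ≠ 0`, `|n| ≤ h · 2 L h · L ≤ 2 h^4 ≤ 1000 h^6`. The map
`z ↦ ((g1, z1), y)` (choose `g1`) has fibres of at most `m` elements (`div_card`, `x = 0`), and its image
has at most `2 h ν · h · L` elements (`g1` a nonzero integer, `|g1| ≤ h ν`). See `tsk_card` (N/D2). -/
theorem tinit_card {p : ℕ} [Fact p.Prime] {S : ℤ} {h m L : ℕ} (H : Hyp p S h m) (P : ParQ p h L)
    {k : ℝ} (hk0 : 0 < k) (hkL : k * h ≤ L) {A B : ℤ} (hAB : ABk p S h k A B) (ν : ℝ) (hν : 0 < ν)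
    (hν1 : ν ≤ 1) :
    ((TSk p S 0 h L k A ν).card : ℝ) ≤ 2 * m * L * (h : ℝ) ^ 2 * ν := by
  classical
  have hL1 : (1 : ℝ) ≤ L := P.one_le_L
  have hLh : (L : ℝ) ≤ h := P.L_le
  have hh1 : (1 : ℝ) ≤ h := P.one_le_h
  have hh0 : (0 : ℝ) < h := by linarith
  have hL0 : (0 : ℝ) < L := by linarith
  have hp1 := P.le_p
  have hk1 : k ≤ 1 := by
    have h1 : k * h ≤ 1 * h := by linarith
    exact le_of_mul_le_mul_right h1 hh0
  have hLp : L < p := by
    have h1 : (L : ℝ) < p := by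
      have h2 : (L : ℝ) * 1 ≤ (L : ℝ) * (L * h ^ 2) :=
        mul_le_mul_of_nonneg_left (by nlinarith) hL0.le
      have h3 : (0 : ℝ) < (L : ℝ) ^ 2 * h ^ 2 := by positivity
      nlinarith
    exact_mod_cast h1
  choose! w g hwg using fun z hz => tsk_data H hk0 hk1 hAB 0 L P.hL1 (init_ne hLp) ν hν hν1 z hz
  set T := TSk p S 0 h L k A ν with hT
  have hmem : ∀ z ∈ T, (1 ≤ z.1 ∧ z.1 ≤ h) ∧ (1 ≤ z.2.1 ∧ z.2.1 ≤ L) ∧
      (1 ≤ z.2.2 ∧ z.2.2 ≤ L) ∧ z.2.1 ≠ z.2.2 := by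
    intro z hz
    rw [hT, mem_TSk] at hz
    exact ⟨hz.1.1, hz.1.2.1, hz.1.2.2, hz.2.1⟩
  have hcast6 : ∀ n : ℤ, |(n : ℝ)| ≤ 1000 * (h : ℝ) ^ 6 → |n| ≤ 1000 * (h : ℤ) ^ 6 := by
    intro n hn
    have : ((|n| : ℤ) : ℝ) ≤ ((1000 * (h : ℤ) ^ 6 : ℤ) : ℝ) := by
      rw [Int.cast_abs]; push_cast; exact hn
    exact_mod_cast this
  -- the equality of integers
  have hkey : ∀ z ∈ T, z.2.1 ∣ g z * (B + A * z.1) * z.2.2 := by
    intro z hz
    obtain ⟨_, _, _, _, _, _, _, h7, h8⟩ := hwg z hz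
    rw [mul_zero, Int.cast_zero] at h8
    have h9 : g z * (B + A * z.1) * (z.2.2 - z.2.1) - (w z - g z * (B + A * z.1)) * z.2.1 = 0 := by
      by_contra h0
      refine zmod_ne_zero_Sc _ h0 (lt_of_le_of_lt h7 ?_) h8.symm
      have e1 : 10 * k * (h : ℝ) ^ 3 * ν * L = 10 * (k * h) * (h : ℝ) ^ 2 * L * ν := by ring
      have e2 : 10 * (k * h) * (h : ℝ) ^ 2 * L * ν ≤ 10 * L * (h : ℝ) ^ 2 * L * 1 := by
        apply mul_le_mul _ hν1 hν.le (by positivity)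
        apply mul_le_mul_of_nonneg_right _ hL0.le
        apply mul_le_mul_of_nonneg_right _ (by positivity)
        linarith
      have e3 : 10 * L * (h : ℝ) ^ 2 * L * 1 = 10 * ((L : ℝ) ^ 2 * (h : ℝ) ^ 2) := by ring
      have e4 : (0 : ℝ) < (L : ℝ) ^ 2 * (h : ℝ) ^ 2 := by positivity
      rw [e1]
      refine e2.trans_lt ?_
      rw [e3]
      nlinarith
    refine ⟨w z, ?_⟩
    linear_combination h9
  have hn0 : ∀ z ∈ T, g z * (B + A * z.1) * z.2.2 ≠ 0 := by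
    intro z hz
    obtain ⟨_, h2, _, _, h5, _⟩ := hwg z hz
    refine mul_ne_zero (mul_ne_zero h2 h5) ?_
    have := (hmem z hz).2.2.1.1
    omega
  have hnb : ∀ z ∈ T, |g z * (B + A * z.1) * z.2.2| ≤ 1000 * (h : ℤ) ^ 6 := by
    intro z hz
    obtain ⟨_, _, _, h4, _, h6, _⟩ := hwg z hz
    apply hcast6
    have hy : |(z.2.2 : ℝ)| ≤ L := by
      obtain ⟨_, _, h2, _⟩ := hmem z hz
      have h3 : (0 : ℝ) ≤ (z.2.2 : ℝ) := by
        have : (0 : ℤ) ≤ z.2.2 := by linarith [h2.1]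
        exact_mod_cast this
      rw [abs_of_nonneg h3]
      have : ((z.2.2 : ℤ) : ℝ) ≤ ((L : ℤ) : ℝ) := by exact_mod_cast h2.2
      simpa using this
    rw [Int.cast_mul, Int.cast_mul, abs_mul, abs_mul]
    calc |(g z : ℝ)| * |((B + A * z.1 : ℤ) : ℝ)| * |(z.2.2 : ℝ)|
        ≤ (h * ν) * (2 * k * (h : ℝ) ^ 2) * L := by
          apply mul_le_mul _ hy (abs_nonneg _) (by positivity)
          exact mul_le_mul h4 h6 (abs_nonneg _) (by positivity)
      _ = 2 * ν * (k * h) * (h : ℝ) ^ 2 * L := by ring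
      _ ≤ 2 * 1 * h * (h : ℝ) ^ 2 * h := by
          apply mul_le_mul _ hLh hL0.le (by positivity)
          apply mul_le_mul_of_nonneg_right _ (by positivity)
          exact mul_le_mul (by linarith) (hkL.trans hLh) (by positivity) (by norm_num)
      _ = 2 * (h : ℝ) ^ 4 := by ring
      _ ≤ 1000 * (h : ℝ) ^ 6 := by
          have h6 : (h : ℝ) ^ 4 ≤ (h : ℝ) ^ 6 := pow_le_pow_right₀ hh1 (by norm_num)
          have h7 : (0 : ℝ) < (h : ℝ) ^ 6 := by positivity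
          linarith
  have hcard : T.card ≤ m * (T.image fun z => (g z, z.1, z.2.2)).card := by
    apply Finset.card_le_mul_card_image
    intro c hc
    obtain ⟨z0, hz0, rfl⟩ := Finset.mem_image.1 hc
    have h1 : ((T.filter fun z => (g z, z.1, z.2.2) = (g z0, z0.1, z0.2.2)).image
        fun z => z.2.1).card ≤ m := by
      refine div_card H.hm _ 0 _ (hn0 z0 hz0) (hnb z0 hz0) ?_
      intro y hy
      obtain ⟨z, hz, rfl⟩ := Finset.mem_image.1 hy
      obtain ⟨hzT, hz'⟩ := Finset.mem_filter.1 hz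
      simp only [Prod.mk.injEq] at hz'
      obtain ⟨eg, e1, e2⟩ := hz'
      rw [sub_zero, ← eg, ← e1, ← e2]
      exact hkey z hzT
    refine le_trans (le_of_eq ?_) h1
    symm
    apply Finset.card_image_of_injOn
    intro z hz z' hz' hzz
    obtain ⟨hzT, hz1⟩ := Finset.mem_filter.1 (Finset.mem_coe.1 hz)
    obtain ⟨hzT', hz1'⟩ := Finset.mem_filter.1 (Finset.mem_coe.1 hz')
    simp only [Prod.mk.injEq] at hz1 hz1'
    exact Prod.ext (hz1.2.1.trans hz1'.2.1.symm)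
      (Prod.ext hzz (hz1.2.2.trans hz1'.2.2.symm))
  have himg : ((T.image fun z => (g z, z.1, z.2.2)).card : ℝ) ≤ 2 * (h * ν) * (h * L) := by
    set K := ⌊(h : ℝ) * ν⌋ with hK
    have hKnn : (0 : ℤ) ≤ K := Int.floor_nonneg.2 (by positivity)
    have hKle : (K : ℝ) ≤ h * ν := Int.floor_le _
    have hsub : (T.image fun z => (g z, z.1, z.2.2)) ⊆
        (Icc (-K) K).erase 0 ×ˢ Icc (1 : ℤ) h ×ˢ Icc (1 : ℤ) L := by
      intro c hc
      obtain ⟨z, hz, rfl⟩ := Finset.mem_image.1 hc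
      simp only [Finset.mem_product, Finset.mem_erase, Finset.mem_Icc]
      refine ⟨⟨(hwg z hz).2.1, ?_⟩, (hmem z hz).1, (hmem z hz).2.2.1⟩
      have h1 : |(g z : ℝ)| ≤ h * ν := (hwg z hz).2.2.2.1
      have h2 : |g z| ≤ K := by
        rw [hK, Int.le_floor, Int.cast_abs]; exact h1
      exact abs_le.1 h2
    have hc := Finset.card_le_card hsub
    rw [Finset.card_product, Finset.card_product, Finset.card_erase_of_mem
      (Finset.mem_Icc.2 ⟨by linarith, hKnn⟩), Int.card_Icc, Int.card_Icc, Int.card_Icc] at hc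
    have e1 : (K + 1 - -K).toNat - 1 = (2 * K).toNat := by omega
    have e2 : ((h : ℤ) + 1 - 1).toNat = h := by omega
    have e3 : ((L : ℤ) + 1 - 1).toNat = L := by omega
    rw [e1, e2, e3] at hc
    have hc' : ((T.image fun z => (g z, z.1, z.2.2)).card : ℝ) ≤
        ((2 * K).toNat : ℝ) * ((h : ℝ) * L) := by exact_mod_cast hc
    have e4 : ((2 * K).toNat : ℝ) = 2 * (K : ℝ) := by
      have h2K : (((2 * K).toNat : ℕ) : ℤ) = 2 * K := Int.toNat_of_nonneg (by linarith)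
      exact_mod_cast h2K
    rw [e4] at hc'
    refine hc'.trans ?_
    apply mul_le_mul_of_nonneg_right _ (by positivity)
    linarith
  have h1 : (T.card : ℝ) ≤ (m : ℝ) * (T.image fun z => (g z, z.1, z.2.2)).card := by
    exact_mod_cast hcard
  calc (T.card : ℝ) ≤ (m : ℝ) * (T.image fun z => (g z, z.1, z.2.2)).card := h1
    _ ≤ (m : ℝ) * (2 * (h * ν) * (h * L)) :=
        mul_le_mul_of_nonneg_left himg (Nat.cast_nonneg _)
    _ = 2 * m * L * (h : ℝ) ^ 2 * ν := by ring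

end Pool.Agent.H.MP_03bc95_nt
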