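import Pool.Agent.H.MP_03bc95_nt.Q.Ab
import Pool.Agent.H.MP_03bc95_nt.Q.St0
import Pool.Agent.H.MP_03bc95_nt.Mb
import Pool.Agent.H.MP_03bc95_nt.N.G1

open Finset

namespace Pool.Agent.H.MP_03bc95_nt

/-- PROOF. `A = [1,L]`, `I = S + {1..h}`. `m6_sq_le A I I`: `M6(A,I,I)² ≤ M6(A,A,I) M6(I,I,I)`, and
`M6(A,I,I) = M6(I,I,A)` (`m6_swap12`, `m6_swap23` in `TN.lean`, see `m6_two` there). `m6_aab` with
`K = max L h` and `exists_m δ` (Mb.lean) for `K`: `m³ ≤ m³ (1 + log) ≤ C₁ K^δ ≤ C₁ L^δ h^δ`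
(`1000 L² h ≤ p`: `L² h ≤ K³`, `100000 K³ ≤ p`); `m6_final δ` (TO.lean):
`M6(I,I,I) ≤ C₂ h^(3+δ) G^(2/3)`, `G = max 1 (h^4/p)`. So `M6(I,I,A)² ≤ 4 C₁ C₂ L² h^4 L^δ h^(2δ) G^(2/3)
≤ (C h² h^δ L L^δ G^(1/3))²` with `C = 4 C₁ C₂`. `0 ∉ Itv` by `G1_zero` and `init_ne`. -/
theorem m6_holder (δ : ℝ) (hδ : 0 < δ) : ∃ C : ℝ, 1 ≤ C ∧ ∀ (p : ℕ) [Fact p.Prime]
    (S : ℤ) (h L : ℕ), 1 ≤ h → 1 ≤ L → 100000 * h ^ 3 ≤ p → 100000 * L ^ 3 ≤ p →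
    (∀ x : ℤ, 1 ≤ x → x ≤ h → ((S + x : ℤ) : ZMod p) ≠ 0) →
    (M6 (Itv p S h) (Itv p S h) (Itv p 0 L) : ℝ) ≤
      C * ((h : ℝ) ^ 2 * (h : ℝ) ^ δ) * ((L : ℝ) * (L : ℝ) ^ δ) *
        (max 1 ((h : ℝ) ^ 4 / p)) ^ ((1 : ℝ) / 3) := by
  obtain ⟨C₁, hC₁, hm⟩ := exists_m δ hδ
  obtain ⟨C₂, hC₂, hf⟩ := m6_final δ hδ
  have hC : 1 ≤ 4 * C₁ * C₂ := by nlinarith
  refine ⟨4 * C₁ * C₂, hC, fun p _ S h L hh hL hp hLp hS => ?_⟩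
  have hh0 : (0 : ℝ) < h := by exact_mod_cast hh
  have hL0 : (0 : ℝ) < L := by exact_mod_cast hL
  have hh1 : (1 : ℝ) ≤ h := by exact_mod_cast hh
  have hL1 : (1 : ℝ) ≤ L := by exact_mod_cast hL
  have hL3 : L ≤ L ^ 3 := Nat.le_self_pow (by norm_num) L
  have hltp : L < p := by omega
  -- the divisor bound
  obtain ⟨K, hK⟩ : ∃ K, K = max L h := ⟨_, rfl⟩
  have hLK : L ≤ K := hK ▸ le_max_left _ _
  have hhK : h ≤ K := hK ▸ le_max_right _ _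
  have hK1 : 1 ≤ K := hL.trans hLK
  have hKp : 100000 * K ^ 3 ≤ p := by
    rcases max_choice L h with h1 | h1
    · rw [hK, h1]
      exact hLp
    · rw [hK, h1]
      exact hp
  have hp1 : 1000 * L ^ 2 * h ≤ p := by
    have h1 : L ^ 2 * h ≤ K ^ 2 * K := Nat.mul_le_mul (Nat.pow_le_pow_left hLK 2) hhK
    have h2 : K ^ 2 * K = K ^ 3 := by ring
    rw [h2] at h1
    calc 1000 * L ^ 2 * h = 1000 * (L ^ 2 * h) := by ring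
      _ ≤ 1000 * K ^ 3 := Nat.mul_le_mul_left _ h1
      _ ≤ 100000 * K ^ 3 := Nat.mul_le_mul_right _ (by norm_num)
      _ ≤ p := hKp
  obtain ⟨m, hdiv, hbd⟩ := hm K hK1
  obtain ⟨a, haa⟩ : ∃ a : ℝ, a = (h : ℝ) ^ δ := ⟨_, rfl⟩
  obtain ⟨b, hbb⟩ : ∃ b : ℝ, b = (L : ℝ) ^ δ := ⟨_, rfl⟩
  obtain ⟨Λ, hΛ⟩ : ∃ Λ : ℝ, Λ = max 1 ((h : ℝ) ^ 4 / p) := ⟨_, rfl⟩
  obtain ⟨t, ht⟩ : ∃ t : ℝ, t = Λ ^ ((1 : ℝ) / 3) := ⟨_, rfl⟩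
  have hΛ1 : 1 ≤ Λ := hΛ ▸ le_max_left _ _
  have hΛ0 : 0 ≤ Λ := zero_le_one.trans hΛ1
  have ha : 1 ≤ a := haa ▸ Real.one_le_rpow hh1 hδ.le
  have hb : 1 ≤ b := hbb ▸ Real.one_le_rpow hL1 hδ.le
  have ht0 : 0 ≤ t := ht ▸ Real.rpow_nonneg hΛ0 _
  have ht2 : Λ ^ ((2 : ℝ) / 3) = t ^ 2 := by
    rw [ht, ← Real.rpow_natCast, ← Real.rpow_mul hΛ0]
    norm_num
  have hKab : (K : ℝ) ^ δ ≤ a * b := by
    rcases max_choice L h with h1 | h1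
    · rw [hK, h1, ← hbb]
      nlinarith
    · rw [hK, h1, ← haa]
      nlinarith
  have hm3 : (m : ℝ) ^ 3 ≤ C₁ * (a * b) := by
    have h1 : (m : ℝ) ^ 3 * 1 ≤ (m : ℝ) ^ 3 * (1 + Nat.log 2 K) :=
      mul_le_mul_of_nonneg_left (by
        have : (0 : ℝ) ≤ Nat.log 2 K := Nat.cast_nonneg _
        linarith) (by positivity)
    have h2 : C₁ * (K : ℝ) ^ δ ≤ C₁ * (a * b) := mul_le_mul_of_nonneg_left hKab (by linarith)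
    linarith
  -- the two bounds
  have e1 := m6_aab hdiv hLK hhK hL hh hp1 hS
  have e2 := hf p S h hh hp hS
  rw [← hΛ, ht2, Real.rpow_add hh0, ← haa] at e2
  have h3 : (h : ℝ) ^ (3 : ℝ) = (h : ℝ) ^ 3 := by
    rw [← Real.rpow_natCast]
    norm_num
  rw [h3] at e2
  have e3 := m6_sq_le (Itv p 0 L) (Itv p S h) (Itv p S h)
    (G1_zero fun x hx1 hx2 => init_ne hltp x hx1 hx2) (G1_zero hS) (G1_zero hS)
  have e4 : M6 (Itv p 0 L) (Itv p S h) (Itv p S h) = M6 (Itv p S h) (Itv p S h) (Itv p 0 L) := by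
    rw [m6_swap12, m6_swap23]
  rw [e4] at e3
  have e5 : (M6 (Itv p S h) (Itv p S h) (Itv p 0 L) : ℝ) ^ 2 ≤
      (M6 (Itv p 0 L) (Itv p 0 L) (Itv p S h) : ℝ) *
        (M6 (Itv p S h) (Itv p S h) (Itv p S h) : ℝ) := by
    exact_mod_cast e3
  have e6 : (M6 (Itv p 0 L) (Itv p 0 L) (Itv p S h) : ℝ) ≤
      4 * (C₁ * (a * b)) * (L : ℝ) ^ 2 * h := by
    refine e1.trans ?_
    gcongr
  rw [← haa, ← hbb, ← hΛ, ← ht]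
  have hC1 : 0 < C₁ := by linarith
  have hC2 : 0 < C₂ := by linarith
  refine (pow_le_pow_iff_left₀ (Nat.cast_nonneg _) (by positivity) two_ne_zero).1 ?_
  calc (M6 (Itv p S h) (Itv p S h) (Itv p 0 L) : ℝ) ^ 2
      ≤ (4 * (C₁ * (a * b)) * (L : ℝ) ^ 2 * h) * (C₂ * ((h : ℝ) ^ 3 * a) * t ^ 2) :=
        e5.trans (mul_le_mul e6 e2 (Nat.cast_nonneg _) (by positivity))
    _ = (4 * C₁ * C₂) * b * ((h : ℝ) ^ 4 * a ^ 2 * (L : ℝ) ^ 2 * t ^ 2) := by ring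
    _ ≤ (4 * C₁ * C₂) ^ 2 * b ^ 2 * ((h : ℝ) ^ 4 * a ^ 2 * (L : ℝ) ^ 2 * t ^ 2) := by
        apply mul_le_mul_of_nonneg_right _ (by positivity)
        apply mul_le_mul _ _ (by positivity) (by positivity)
        · nlinarith
        · nlinarith
    _ = (4 * C₁ * C₂ * ((h : ℝ) ^ 2 * a) * (↑L * b) * t) ^ 2 := by ring

end Pool.Agent.H.MP_03bc95_nt
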