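import Pool.Agent.H.MP_03bc95_nt.Q.As
import Pool.Agent.H.MP_03bc95_nt.Q.Cu
import Pool.Agent.H.MP_03bc95_nt.N.G1

open Finset

namespace Pool.Agent.H.MP_03bc95_nt

/-- Copy of `m6_mixed` (N/G1). Case `h^4 ≤ p`: `G1_final` for `I`, `cube_init_clean` for `[1,L]`
(`L³ < p`), `m6_two`. Case `p < h^4`: then `1000 L² h² ≤ p < h^4`, so `L ≤ h`: `m6_init` and `exists_m`.
`0 ∉ Itv p 0 L` by `G1_zero` and `init_ne`. -/
theorem m6_initc (δ : ℝ) (hδ : 0 < δ) : ∃ C : ℝ, 1 ≤ C ∧ ∀ (p : ℕ) [Fact p.Prime]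
    (S : ℤ) (h L : ℕ), 1 ≤ h → 1 ≤ L → 100000 * h ^ 3 ≤ p → 100000 * L ^ 3 ≤ p →
    (1000 * L ^ 2 * h ^ 2 ≤ p ∨ h ^ 4 ≤ p) →
    (∀ x : ℤ, 1 ≤ x → x ≤ h → ((S + x : ℤ) : ZMod p) ≠ 0) →
    (M6 (Itv p S h) (Itv p S h) (Itv p 0 L) : ℝ) ≤
      C * ((h : ℝ) ^ 2 * (h : ℝ) ^ δ) * ((L : ℝ) * (L : ℝ) ^ δ) := by
  obtain ⟨C₁, hC₁, hm⟩ := exists_m δ hδ
  obtain ⟨C₂, hC₂, hf⟩ := m6_final δ hδ
  obtain ⟨C₃, hC₃, hc⟩ := cube_init_clean δ hδ
  refine ⟨1000 * C₁ + C₂ * C₃, by nlinarith, fun p _ S h L hh hL1 hp hp3 hcase hS => ?_⟩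
  have hh0 : (0 : ℝ) < h := by exact_mod_cast hh
  have hL0 : (0 : ℝ) < L := by exact_mod_cast hL1
  have hh1 : (1 : ℝ) ≤ h := by exact_mod_cast hh
  have hL1' : (1 : ℝ) ≤ L := by exact_mod_cast hL1
  have ha : 1 ≤ (h : ℝ) ^ δ := Real.one_le_rpow hh1 hδ.le
  have hb : 1 ≤ (L : ℝ) ^ δ := Real.one_le_rpow hL1' hδ.le
  obtain ⟨a, haa⟩ : ∃ a : ℝ, a = (h : ℝ) ^ δ := ⟨_, rfl⟩
  obtain ⟨b, hbb⟩ : ∃ b : ℝ, b = (L : ℝ) ^ δ := ⟨_, rfl⟩
  rw [← haa] at ha ⊢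
  rw [← hbb] at hb ⊢
  have ha0 : 0 < a := by linarith
  have hb0 : 0 < b := by linarith
  have hC0 : 0 < C₂ := by linarith
  have hC30 : 0 < C₃ := by linarith
  have hC23 : 0 < C₂ * C₃ := mul_pos hC0 hC30
  have hL3 : L ≤ L ^ 3 := Nat.le_self_pow (by norm_num) L
  have hL3' : 1 ≤ L ^ 3 := Nat.one_le_pow _ _ hL1
  rcases le_or_gt (h ^ 4) p with h4 | h4
  · -- both intervals are short
    have e1 := G1_final hf p S h hh hp hS h4
    have e2 := hc p L hL1 (by omega)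
    rw [← haa] at e1
    rw [← hbb] at e2
    have hS0 : ∀ x : ℤ, 1 ≤ x → x ≤ L → ((0 + x : ℤ) : ZMod p) ≠ 0 :=
      fun x h1 h2 => init_ne (by omega) x h1 h2
    have e3 := m6_two (Itv p S h) (Itv p 0 L) (G1_zero hS) (G1_zero hS0)
    have e4 : (M6 (Itv p S h) (Itv p S h) (Itv p 0 L) : ℝ) ^ 3 ≤
        (M6 (Itv p S h) (Itv p S h) (Itv p S h) : ℝ) ^ 2 *
          (M6 (Itv p 0 L) (Itv p 0 L) (Itv p 0 L) : ℝ) := by
      exact_mod_cast e3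
    have hx0 : (0 : ℝ) ≤ M6 (Itv p S h) (Itv p S h) (Itv p S h) := Nat.cast_nonneg _
    have hy0 : (0 : ℝ) ≤ M6 (Itv p 0 L) (Itv p 0 L) (Itv p 0 L) := Nat.cast_nonneg _
    have hz0 : (0 : ℝ) ≤ M6 (Itv p S h) (Itv p S h) (Itv p 0 L) := Nat.cast_nonneg _
    have e5 : (M6 (Itv p S h) (Itv p S h) (Itv p 0 L) : ℝ) ^ 3 ≤
        ((C₂ * C₃) * ((h : ℝ) ^ 2 * a) * (L * b)) ^ 3 := by
      calc (M6 (Itv p S h) (Itv p S h) (Itv p 0 L) : ℝ) ^ 3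
          ≤ (M6 (Itv p S h) (Itv p S h) (Itv p S h) : ℝ) ^ 2 *
            (M6 (Itv p 0 L) (Itv p 0 L) (Itv p 0 L) : ℝ) := e4
        _ ≤ (C₂ * ((h : ℝ) ^ 3 * a)) ^ 2 * (C₃ * ((L : ℝ) ^ 3 * b)) := by
            apply mul_le_mul (pow_le_pow_left₀ hx0 e1 2) e2 hy0 (by positivity)
        _ = C₂ ^ 2 * C₃ * ((h : ℝ) ^ 6 * (L : ℝ) ^ 3 * (a ^ 2 * b)) := by ring
        _ ≤ C₂ ^ 3 * C₃ ^ 3 * ((h : ℝ) ^ 6 * (L : ℝ) ^ 3 * (a ^ 3 * b ^ 3)) := by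
            apply mul_le_mul
            · apply mul_le_mul (pow_le_pow_right₀ hC₂ (by norm_num)) _ hC30.le (by positivity)
              calc C₃ = C₃ ^ 1 := (pow_one C₃).symm
                _ ≤ C₃ ^ 3 := pow_le_pow_right₀ hC₃ (by norm_num)
            · apply mul_le_mul_of_nonneg_left _ (by positivity)
              apply mul_le_mul (pow_le_pow_right₀ ha (by norm_num)) _ hb0.le (by positivity)
              calc b = b ^ 1 := (pow_one b).symm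
                _ ≤ b ^ 3 := pow_le_pow_right₀ hb (by norm_num)
            · positivity
            · positivity
        _ = ((C₂ * C₃) * ((h : ℝ) ^ 2 * a) * (L * b)) ^ 3 := by ring
    have e6 := (pow_le_pow_iff_left₀ hz0 (by positivity) three_ne_zero).1 e5
    refine e6.trans ?_
    apply mul_le_mul_of_nonneg_right _ (by positivity)
    apply mul_le_mul_of_nonneg_right _ (by positivity)
    linarith
  · -- the interval `I` is long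
    have h5 : 1000 * L ^ 2 * h ^ 2 ≤ p := by
      rcases hcase with h6 | h6
      · exact h6
      · omega
    have h7 : L ≤ h := by
      by_contra hcon
      push Not at hcon
      have h8 : h ^ 2 ≤ L ^ 2 := Nat.pow_le_pow_left hcon.le 2
      have h9 : h ^ 2 * h ^ 2 ≤ L ^ 2 * h ^ 2 := Nat.mul_le_mul_right _ h8
      have h10 : h ^ 4 = h ^ 2 * h ^ 2 := by ring
      have h11 : 1000 * L ^ 2 * h ^ 2 = 1000 * (L ^ 2 * h ^ 2) := by ring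
      omega
    obtain ⟨m, hdiv, hbd⟩ := hm h hh
    rw [← haa] at hbd
    have h1 := m6_init (m := m) ⟨hh, hp, hS, hdiv⟩ ⟨hL1, h7, h5⟩
    calc (M6 (Itv p S h) (Itv p S h) (Itv p 0 L) : ℝ)
        ≤ 1000 * (m : ℝ) ^ 3 * L * (h : ℝ) ^ 2 * (1 + Nat.log 2 h) := h1
      _ = 1000 * L * (h : ℝ) ^ 2 * ((m : ℝ) ^ 3 * (1 + Nat.log 2 h)) := by ring
      _ ≤ 1000 * L * (h : ℝ) ^ 2 * (C₁ * a) :=
          mul_le_mul_of_nonneg_left hbd (by positivity)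
      _ = (1000 * C₁) * ((h : ℝ) ^ 2 * a) * (L * 1) := by ring
      _ ≤ (1000 * C₁ + C₂ * C₃) * ((h : ℝ) ^ 2 * a) * (L * b) := by
          apply mul_le_mul
          · exact mul_le_mul_of_nonneg_right (by linarith) (by positivity)
          · exact mul_le_mul_of_nonneg_left hb hL0.le
          · positivity
          · have : 0 ≤ 1000 * C₁ + C₂ * C₃ := by linarith
            positivity

end Pool.Agent.H.MP_03bc95_nt
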