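import Pool.Agent.H.MP_03bc95_nt.Q.Def
import Pool.Agent.H.MP_03bc95_nt.P1
import Pool.Agent.H.MP_03bc95_nt.P2

open Finset

namespace Pool.Agent.H.MP_03bc95_nt

/-- For fixed `α` the pairs `(β, γ)` are at most `5 h`. PROOF. Let `F` be the set of these pairs. The
differences `(c, d)` satisfy `c S + d = 0` modulo `p`, `|c| ≤ 4 L h`, `|d| ≤ 2 L h²`, and if they are
nonzero `|c| ≥ L` or `|d| ≥ L h` (`hL`, `1 / (h / L) * h = L`). If all differences are proportional: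
`par2` with scales `s1 = L`, `s2 = L h`, `r = 1`, `D = 4 h`: `#F ≤ 4 h + 1 ≤ 5 h`. Otherwise `pack2`
(`α = S`, `β = 1`; scales `4 L h`, `2 L h²`; `F` translated by one of its elements):
`p #F ≤ (24 L h + 1)(12 L h² + 1) ≤ 25 · 13 · L² h³ = 325 L² h³ ≤ 0.325 p h`. See `abk_values` in
`TG2.lean` for the same argument. -/
theorem ps_fibre {p : ℕ} [Fact p.Prime] {S : ℤ} {h m L : ℕ} (H : Hyp p S h m) (P : ParQ p h L)
    (hL : LBS p S h (1 / ((h : ℝ) / L))) (α : ℤ) :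
    (((PS p S h L).filter fun f => f.1 = α).card : ℝ) ≤ 5 * h := by
  classical
  have hL1 := P.one_le_L
  have hh1 := P.one_le_h
  have hL0 : (0 : ℝ) < L := by linarith
  have hh0 : (0 : ℝ) < h := by linarith
  have hpR := P.le_p
  have hp0 : (0 : ℝ) < p := by
    have : (0 : ℝ) < 1000 * (L : ℝ) ^ 2 * (h : ℝ) ^ 2 := by positivity
    linarith
  have k1 : 1 / ((h : ℝ) / L) * h = L := by field_simp
  have k2 : 1 / ((h : ℝ) / L) * (h : ℝ) ^ 2 = L * h := by field_simp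
  set F : Finset (ℤ × ℤ × ℤ) := (PS p S h L).filter fun f => f.1 = α with hF
  have hdiff : ∀ q ∈ F, ∀ q' ∈ F, (((q.2.1 - q'.2.1) * S + (q.2.2 - q'.2.2) : ℤ) : ZMod p) = 0 ∧
      |((q.2.1 - q'.2.1 : ℤ) : ℝ)| ≤ 4 * L * h ∧
      |((q.2.2 - q'.2.2 : ℤ) : ℝ)| ≤ 2 * L * (h : ℝ) ^ 2 := by
    rintro ⟨a, b, c⟩ hq ⟨a', b', c'⟩ hq'
    obtain ⟨hq1, hq2⟩ := Finset.mem_filter.1 hq
    obtain ⟨hq3, hq4⟩ := Finset.mem_filter.1 hq'
    obtain ⟨⟨-, m2, m3⟩, m4⟩ := mem_PS.1 hq1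
    obtain ⟨⟨-, n2, n3⟩, n4⟩ := mem_PS.1 hq3
    simp only at hq2 hq4 m2 m3 m4 n2 n3 n4 ⊢
    subst hq2
    subst hq4
    refine ⟨?_, ?_, ?_⟩
    · push_cast at m4 n4 ⊢
      linear_combination m4 - n4
    · have e1 : |(b : ℝ)| ≤ 2 * L * h := by exact_mod_cast m2
      have e2 : |(b' : ℝ)| ≤ 2 * L * h := by exact_mod_cast n2
      push_cast
      have := abs_sub (b : ℝ) b'
      linarith
    · have e1 : |(c : ℝ)| ≤ L * (h : ℝ) ^ 2 := by exact_mod_cast m3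
      have e2 : |(c' : ℝ)| ≤ L * (h : ℝ) ^ 2 := by exact_mod_cast n3
      push_cast
      have := abs_sub (c : ℝ) c'
      linarith
  rcases F.eq_empty_or_nonempty with hFe | ⟨q0, hq0⟩
  · rw [hFe]
    simp only [Finset.card_empty, Nat.cast_zero]
    positivity
  have hfst : ∀ q ∈ F, q.1 = α := fun q hq => (Finset.mem_filter.1 hq).2
  by_cases hall : ∀ i ∈ F, ∀ j ∈ F, ∀ u ∈ F, ∀ l ∈ F,
      (i.2.1 - j.2.1) * (u.2.2 - l.2.2) = (i.2.2 - j.2.2) * (u.2.1 - l.2.1)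
  · have hpar := par2 F (fun q => q.2.1) (fun q => q.2.2) (L : ℝ) (L * h) (4 * h) 1
      hL0 (by positivity) (by norm_num) (by positivity) hall
      (by
        intro i hi j hj hij
        obtain ⟨d1, d2, d3⟩ := hdiff i hi j hj
        have := hL (i.2.1 - j.2.1) (i.2.2 - j.2.2) (by
          rintro ⟨h5, h6⟩
          apply hij
          have h7 := (hfst i hi).trans (hfst j hj).symm
          exact Prod.ext h7 (Prod.ext (by linarith) (by linarith))) d1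
        rw [k1, k2] at this
        simpa only [one_mul] using this)
      (by
        intro i hi j hj
        obtain ⟨d1, d2, d3⟩ := hdiff i hi j hj
        refine ⟨by linarith [d2], ?_⟩
        have e1 : 2 * (L : ℝ) * (h : ℝ) ^ 2 ≤ 4 * h * (L * h) := by
          have : (0 : ℝ) ≤ L * (h : ℝ) ^ 2 := by positivity
          nlinarith
        exact d3.trans e1)
    rw [div_one] at hpar
    linarith
  · push Not at hall
    obtain ⟨i, hi, j, hj, u, hu, l, hl, hne⟩ := hall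
    have lat : ∀ q ∈ F, ∀ q' ∈ F, (S : ZMod p) * ((q.2.1 - q'.2.1 : ℤ) : ZMod p) +
        1 * ((q.2.2 - q'.2.2 : ℤ) : ZMod p) = 0 := by
      intro q hq q' hq'
      have h1 := (hdiff q hq q' hq').1
      push_cast at h1 ⊢
      linear_combination h1
    have e1 := pack2 (p := p) (S : ZMod p) 1 (Or.inr one_ne_zero)
      (F.image (fun q => (q.2.1 - q0.2.1, q.2.2 - q0.2.2))) (4 * L * h) (2 * L * (h : ℝ) ^ 2)
      (by
        intro f hf
        obtain ⟨q, hq, rfl⟩ := Finset.mem_image.1 hf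
        obtain ⟨d1, d2, d3⟩ := hdiff q hq q0 hq0
        exact ⟨d2, d3, lat q hq q0 hq0⟩)
      (i.2.1 - j.2.1, i.2.2 - j.2.2) (u.2.1 - l.2.1, u.2.2 - l.2.2)
      ⟨(hdiff i hi j hj).2.1, (hdiff i hi j hj).2.2, lat i hi j hj⟩
      ⟨(hdiff u hu l hl).2.1, (hdiff u hu l hl).2.2, lat u hu l hl⟩ hne
    rw [Finset.card_image_of_injOn] at e1
    · have g1 : (1 : ℝ) ≤ L * h := by nlinarith
      have g2 : (1 : ℝ) ≤ L * (h : ℝ) ^ 2 := by nlinarith
      have e2 : (6 * (4 * L * h) + 1) * (6 * (2 * L * (h : ℝ) ^ 2) + 1) ≤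
          325 * ((L : ℝ) ^ 2 * (h : ℝ) ^ 3) := by
        have g3 : (6 * (4 * L * h) + 1) ≤ 25 * ((L : ℝ) * h) := by linarith
        have g4 : (6 * (2 * L * (h : ℝ) ^ 2) + 1) ≤ 13 * ((L : ℝ) * (h : ℝ) ^ 2) := by linarith
        calc (6 * (4 * L * h) + 1) * (6 * (2 * L * (h : ℝ) ^ 2) + 1)
            ≤ (25 * ((L : ℝ) * h)) * (13 * ((L : ℝ) * (h : ℝ) ^ 2)) :=
              mul_le_mul g3 g4 (by positivity) (by positivity)
          _ = 325 * ((L : ℝ) ^ 2 * (h : ℝ) ^ 3) := by ring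
      have e3 : (F.card : ℝ) * p ≤ (5 * h) * p := by
        have e4 : 1000 * (L : ℝ) ^ 2 * (h : ℝ) ^ 2 * h ≤ p * h :=
          mul_le_mul_of_nonneg_right hpR hh0.le
        have e5 : (0 : ℝ) ≤ p * h := by positivity
        have e6 : (0 : ℝ) ≤ (L : ℝ) ^ 2 * (h : ℝ) ^ 3 := by positivity
        nlinarith
      exact le_of_mul_le_mul_right e3 hp0
    · intro q hq q' hq' hqq
      simp only [Prod.mk.injEq, sub_left_inj] at hqq
      exact Prod.ext ((hfst q hq).trans (hfst q' hq').symm) (Prod.ext hqq.1 hqq.2)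

/-- `#PS ≤ (2 L + 1) 5 h ≤ 15 L h`: `ps_fibre` and `Finset.card_le_mul_card_image` or
`card_eq_sum_card_fiberwise` over `α ∈ [-L, L]`. -/
theorem ps_card {p : ℕ} [Fact p.Prime] {S : ℤ} {h m L : ℕ} (H : Hyp p S h m) (P : ParQ p h L)
    (hL : LBS p S h (1 / ((h : ℝ) / L))) : ((PS p S h L).card : ℝ) ≤ 15 * L * h := by
  classical
  have hL1 := P.one_le_L
  have hh1 := P.one_le_h
  have hmap : ∀ f ∈ PS p S h L, f.1 ∈ Icc (-(L : ℤ)) L := by
    rintro ⟨a, b, c⟩ hf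
    obtain ⟨⟨m1, -, -⟩, -⟩ := mem_PS.1 hf
    rw [mem_Icc]
    exact abs_le.1 m1
  have h1 := Finset.card_eq_sum_card_fiberwise hmap
  have h2 : ((PS p S h L).card : ℝ) =
      ∑ α ∈ Icc (-(L : ℤ)) L, (((PS p S h L).filter fun f => f.1 = α).card : ℝ) := by
    rw [h1]
    push_cast
    rfl
  rw [h2]
  calc ∑ α ∈ Icc (-(L : ℤ)) L, (((PS p S h L).filter fun f => f.1 = α).card : ℝ)
      ≤ ∑ α ∈ Icc (-(L : ℤ)) L, (5 * h : ℝ) :=
        Finset.sum_le_sum fun α _ => ps_fibre H P hL α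
    _ = (2 * L + 1) * (5 * h) := by
        rw [Finset.sum_const, nsmul_eq_mul, Int.card_Icc]
        have : ((L : ℤ) + 1 - -(L : ℤ)).toNat = 2 * L + 1 := by omega
        rw [this]
        push_cast
        ring
    _ ≤ 15 * L * h := by nlinarith

end Pool.Agent.H.MP_03bc95_nt
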